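import Pool.Agent.H292Z.Sys

/-!
The block sets theorem, with a block size that does not depend on the number of colours.
-/

set_option autoImplicit false

namespace Pool.Agent.H292Z

theorem blockSets (m l : ℕ) (hm : 0 < m) (T : Fin l → Fin m) :
    ∃ d : ℕ, 0 < d ∧ ∀ k : ℕ, 0 < k → ∃ n : ℕ, 0 < n ∧
      ∀ c : (Fin n → Fin m) → Fin k,
        ∃ I : Fin l → Finset (Fin n), ∃ a : Fin n → Fin m, ∃ col : Fin k,
          (∀ j, (I j).card = d) ∧
          (Pairwise fun j j' => Disjoint (I j) (I j')) ∧
          ∀ w : Fin n → Fin m,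
            ((∀ i, (∀ j, i ∉ I j) → w i = a i) ∧
              ∃ σ : Equiv.Perm (Fin l), ∀ j, ∀ i ∈ I j, w i = T (σ j)) →
            c w = col := by
  classical
  cases l with
  | zero =>
    refine ⟨1, one_pos, fun k _ => ⟨1, one_pos, fun c => ?_⟩⟩
    refine ⟨fun j => j.elim0, fun _ => ⟨0, hm⟩, c (fun _ => ⟨0, hm⟩), fun j => j.elim0,
      fun j => j.elim0, ?_⟩
    rintro w ⟨hw, -⟩
    congr 1
    funext i
    exact hw i (fun j => j.elim0)
  | succ l =>
    obtain ⟨d, hd, h⟩ := ram_cont l (Fin m)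
    refine ⟨d, hd, fun k hk => ?_⟩
    obtain ⟨N, hN, hc⟩ := h (Fin k)
    have hne : Nonempty N := by
      obtain ⟨lab, hdeg, -⟩ := hc (fun _ => ⟨0, hk⟩)
      have : 0 < Nat.card {n // lab n = Sum.inl 0} := by rw [hdeg 0]; exact hd
      obtain ⟨⟨n, -⟩⟩ := (Nat.card_pos_iff.1 this).1
      exact ⟨n⟩
    let e : N ≃ Fin (Nat.card N) := Finite.equivFin N
    refine ⟨Nat.card N, Nat.card_pos, fun c => ?_⟩
    obtain ⟨lab, hdeg, hl⟩ := hc (fun u => c (fun i => u (e.symm i)))
    refine ⟨fun j => Finset.univ.filter (fun i => lab (e.symm i) = Sum.inl j),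
      fun i => Sum.elim (fun _ => ⟨0, hm⟩) id (lab (e.symm i)),
      c (fun i => ev lab T (e.symm i)), ?_, ?_, ?_⟩
    · intro j
      rw [← hdeg j, ← Fintype.card_subtype, ← Nat.card_eq_fintype_card]
      exact Nat.card_congr (Equiv.subtypeEquiv e.symm (fun _ => Iff.rfl))
    · intro j j' hjj
      rw [Finset.disjoint_filter]
      intro i _ h1 h2
      exact hjj (Sum.inl_injective (h1.symm.trans h2))
    · rintro w ⟨hw, σ, hσ⟩
      have : w = fun i => ev lab (fun j => T (σ j)) (e.symm i) := by
        funext i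
        simp only [ev]
        cases hl : lab (e.symm i) with
        | inl j => exact hσ j i (by simp [hl])
        | inr s =>
          have := hw i (fun j => by simp [hl])
          rw [this]
          simp only [hl]
          rfl
      rw [this]
      exact hl _ _ (cont_perm T σ)

end Pool.Agent.H292Z
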