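import Mathlib

set_option autoImplicit false

/-! The ratio `P(G, q - 1) / P(G, q)` of values of a chromatic polynomial, for `q` at least the
number of vertices, is bounded in terms of any clique of `G`. -/

namespace Pool.Agent.H292Z.Chrom

open Finset Function

variable {V : Type} [Fintype V] [LinearOrder V]

open Classical in
/-- proper colourings of the vertices in `A` with colours `< q` (value `0` off `A`) -/
noncomputable def Col (A : Finset V) (E : V → V → Prop) (q : ℕ) : Finset (V → ℕ) :=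
  (Fintype.piFinset fun x => if x ∈ A then range q else {0}).filter
    fun f => ∀ a ∈ A, ∀ b ∈ A, E a b → f a ≠ f b

lemma mem_Col {A : Finset V} {E : V → V → Prop} {q : ℕ} {f : V → ℕ} :
    f ∈ Col A E q ↔ (∀ x ∈ A, f x < q) ∧ (∀ x, x ∉ A → f x = 0) ∧
      ∀ a ∈ A, ∀ b ∈ A, E a b → f a ≠ f b := by
  classical
  simp only [Col, mem_filter, Fintype.mem_piFinset]
  constructor
  · rintro ⟨h1, h2⟩
    refine ⟨fun x hx => ?_, fun x hx => ?_, h2⟩
    · simpa [hx] using h1 x
    · simpa [hx] using h1 x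
  · rintro ⟨h1, h2, h3⟩
    refine ⟨fun x => ?_, h3⟩
    by_cases hx : x ∈ A
    · simpa [hx] using h1 x hx
    · simpa [hx] using h2 x hx

/-- extension of a colouring to one more vertex -/
lemma card_Col_ext {A S : Finset V} {E : V → V → Prop} {u : V} (hu : u ∈ A) (huu : ¬ E u u)
    (hS : ∀ x, x ∈ S ↔ x ∈ A.erase u ∧ (E u x ∨ E x u)) (q : ℕ) :
    ((Col A E q).card : ℝ) = ∑ f ∈ Col (A.erase u) E q, ((q : ℝ) - (S.image f).card) := by
  classical
  have h1 : (Col A E q).card =
      ((Col (A.erase u) E q).sigma fun f => range q \ S.image f).card := by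
    refine card_nbij' (fun g => ⟨update g u 0, g u⟩) (fun p => update p.1 u p.2) ?_ ?_ ?_ ?_
    · intro g hg
      obtain ⟨h1, h2, h3⟩ := mem_Col.1 (mem_coe.1 hg)
      simp only [coe_sigma, Set.mem_sigma_iff, mem_coe, mem_sdiff, mem_range, mem_image, not_exists,
        not_and]
      refine ⟨mem_Col.2 ⟨fun x hx => ?_, fun x hx => ?_, fun a ha b hb hab => ?_⟩, h1 u hu,
        fun x hx => ?_⟩
      · rw [update_of_ne (ne_of_mem_erase hx)]; exact h1 x (mem_of_mem_erase hx)
      · by_cases hxu : x = u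
        · subst hxu; simp
        · rw [update_of_ne hxu]; exact h2 x fun h => hx (mem_erase.2 ⟨hxu, h⟩)
      · rw [update_of_ne (ne_of_mem_erase ha), update_of_ne (ne_of_mem_erase hb)]
        exact h3 a (mem_of_mem_erase ha) b (mem_of_mem_erase hb) hab
      · obtain ⟨hx1, hx2⟩ := (hS x).1 hx
        rw [update_of_ne (ne_of_mem_erase hx1)]
        rcases hx2 with h | h
        · exact (h3 u hu x (mem_of_mem_erase hx1) h).symm
        · exact h3 x (mem_of_mem_erase hx1) u hu h
    · rintro ⟨f, c⟩ hp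
      simp only [coe_sigma, Set.mem_sigma_iff, mem_coe, mem_sdiff, mem_range, mem_image, not_exists,
        not_and] at hp
      obtain ⟨hf, hc, hcS⟩ := hp
      obtain ⟨h1, h2, h3⟩ := mem_Col.1 hf
      refine mem_coe.2 (mem_Col.2 ⟨fun x hx => ?_, fun x hx => ?_, fun a ha b hb hab => ?_⟩)
      · by_cases hxu : x = u
        · subst hxu; simpa using hc
        · simp only [update_of_ne hxu]; exact h1 x (mem_erase.2 ⟨hxu, hx⟩)
      · have hxu : x ≠ u := fun h => hx (h ▸ hu)
        simp only [update_of_ne hxu]; exact h2 x fun h => hx (mem_of_mem_erase h)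
      · by_cases hau : a = u
        · subst hau
          have hbu : b ≠ a := fun h => huu (by subst h; exact hab)
          simp only [update_self, update_of_ne hbu]
          exact Ne.symm (hcS b ((hS b).2 ⟨mem_erase.2 ⟨hbu, hb⟩, Or.inl hab⟩))
        · by_cases hbu : b = u
          · subst hbu
            simp only [update_self, update_of_ne hau]
            exact hcS a ((hS a).2 ⟨mem_erase.2 ⟨hau, ha⟩, Or.inr hab⟩)
          · simp only [update_of_ne hau, update_of_ne hbu]
            exact h3 a (mem_erase.2 ⟨hau, ha⟩) b (mem_erase.2 ⟨hbu, hb⟩) hab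
    · intro g _
      simp
    · rintro ⟨f, c⟩ hp
      simp only [coe_sigma, Set.mem_sigma_iff, mem_coe] at hp
      have h0 : f u = 0 := (mem_Col.1 hp.1).2.1 u (notMem_erase u A)
      simp only [update_idem, update_self]
      congr 1
      rw [← h0]; exact update_eq_self u f
  rw [h1, card_sigma]
  push_cast
  refine sum_congr rfl fun f hf => ?_
  have hsub : S.image f ⊆ range q := by
    intro c hc
    obtain ⟨x, hx, rfl⟩ := mem_image.1 hc
    exact mem_range.2 ((mem_Col.1 hf).1 x ((hS x).1 hx).1)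
  rw [card_sdiff_of_subset hsub, Nat.cast_sub (card_le_card hsub), card_range]

/-- identification of two vertices -/
lemma card_contract {A Z : Finset V} {E : V → V → Prop} {x y : V} (hx : x ∈ A) (hy : y ∈ A)
    (hxy : y ≠ x) (hxx : ¬ E x x) (hZ : Z ⊆ A.erase x) (q : ℕ)
    [DecidablePred fun f : V → ℕ => f y = f x ∧ ∀ z ∈ Z, f z ≠ f y] :
    ((Col A E q).filter fun f => f y = f x ∧ ∀ z ∈ Z, f z ≠ f y).card =
      (Col (A.erase x) (fun a b => E a b ∨ (a = y ∧ (E x b ∨ E b x ∨ b ∈ Z))) q).card := by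
  classical
  have hy' : y ∈ A.erase x := mem_erase.2 ⟨hxy, hy⟩
  refine card_nbij' (fun f => update f x 0) (fun g => update g x (g y)) ?_ ?_ ?_ ?_
  · intro f hf
    obtain ⟨hf, hfe, hfZ⟩ := mem_filter.1 (mem_coe.1 hf)
    obtain ⟨h1, h2, h3⟩ := mem_Col.1 hf
    refine mem_coe.2 (mem_Col.2 ⟨fun a ha => ?_, fun a ha => ?_, fun a ha b hb hab => ?_⟩)
    · simp only [update_of_ne (ne_of_mem_erase ha)]; exact h1 a (mem_of_mem_erase ha)
    · by_cases hax : a = x
      · subst hax; simp
      · simp only [update_of_ne hax]; exact h2 a fun h => ha (mem_erase.2 ⟨hax, h⟩)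
    · simp only [update_of_ne (ne_of_mem_erase ha), update_of_ne (ne_of_mem_erase hb)]
      rcases hab with h | ⟨rfl, h | h | h⟩
      · exact h3 a (mem_of_mem_erase ha) b (mem_of_mem_erase hb) h
      · rw [hfe]; exact h3 x hx b (mem_of_mem_erase hb) h
      · rw [hfe]; exact (h3 b (mem_of_mem_erase hb) x hx h).symm
      · exact (hfZ b h).symm
  · intro g hg
    obtain ⟨h1, h2, h3⟩ := mem_Col.1 (mem_coe.1 hg)
    refine mem_coe.2 (mem_filter.2 ⟨mem_Col.2 ⟨fun a ha => ?_, fun a ha => ?_,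
      fun a ha b hb hab => ?_⟩, ?_, fun z hz => ?_⟩)
    · by_cases hax : a = x
      · subst hax; simpa using h1 y hy'
      · simp only [update_of_ne hax]; exact h1 a (mem_erase.2 ⟨hax, ha⟩)
    · have hax : a ≠ x := fun h => ha (h ▸ hx)
      simp only [update_of_ne hax]; exact h2 a fun h => ha (mem_of_mem_erase h)
    · by_cases hax : a = x
      · subst hax
        have hb' : b ≠ a := fun h => hxx (by subst h; exact hab)
        simp only [update_self, update_of_ne hb']
        exact h3 y hy' b (mem_erase.2 ⟨hb', hb⟩) (Or.inr ⟨rfl, Or.inl hab⟩)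
      · by_cases hbx : b = x
        · subst hbx
          simp only [update_self, update_of_ne hax]
          exact (h3 y hy' a (mem_erase.2 ⟨hax, ha⟩) (Or.inr ⟨rfl, Or.inr (Or.inl hab)⟩)).symm
        · simp only [update_of_ne hax, update_of_ne hbx]
          exact h3 a (mem_erase.2 ⟨hax, ha⟩) b (mem_erase.2 ⟨hbx, hb⟩) (Or.inl hab)
    · simp [update_of_ne hxy]
    · simp only [update_of_ne hxy, update_of_ne (ne_of_mem_erase (hZ hz))]
      exact (h3 y hy' z (hZ hz) (Or.inr ⟨rfl, Or.inr (Or.inr hz)⟩)).symm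
  · intro f hf
    obtain ⟨-, hfe, -⟩ := mem_filter.1 (mem_coe.1 hf)
    simp only [update_idem, update_of_ne hxy, hfe, update_eq_self]
  · intro g hg
    have h0 : g x = 0 := (mem_Col.1 (mem_coe.1 hg)).2.1 x (notMem_erase x A)
    simp only [update_idem]
    rw [← h0]; exact update_eq_self x g

/-- the vertices of `S` that come first in their colour class -/
def Fst (S : Finset V) (f : V → ℕ) : Finset V := S.filter fun x => ∀ z ∈ S, z < x → f z ≠ f x

/-- pairs (first vertex of a colour class of `S`, later vertex of that class) -/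
def Rep (S : Finset V) (f : V → ℕ) : Finset (V × V) :=
  (S ×ˢ S).filter fun p => p.1 < p.2 ∧ f p.1 = f p.2 ∧ ∀ z ∈ S, z < p.1 → f z ≠ f p.1

lemma Fst_inj (S : Finset V) (f : V → ℕ) : Set.InjOn f (Fst S f) := by
  intro a ha b hb hab
  obtain ⟨ha1, ha2⟩ := mem_filter.1 (mem_coe.1 ha)
  obtain ⟨hb1, hb2⟩ := mem_filter.1 (mem_coe.1 hb)
  rcases lt_trichotomy a b with h | h | h
  · exact absurd hab (hb2 a ha1 h)
  · exact h
  · exact absurd hab.symm (ha2 b hb1 h)

lemma exists_Fst (S : Finset V) (f : V → ℕ) {x : V} (hx : x ∈ S) :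
    ∃ y ∈ Fst S f, y ≤ x ∧ f y = f x := by
  obtain ⟨y, hy, hmin⟩ := exists_min_image (S.filter fun y => f y = f x) id
    ⟨x, mem_filter.2 ⟨hx, rfl⟩⟩
  obtain ⟨hy1, hy2⟩ := mem_filter.1 hy
  refine ⟨y, mem_filter.2 ⟨hy1, fun z hz hzy h => ?_⟩, hmin x (mem_filter.2 ⟨hx, rfl⟩), hy2⟩
  exact absurd (hmin z (mem_filter.2 ⟨hz, h.trans hy2⟩)) (not_le.2 hzy)

lemma card_Rep (S : Finset V) (f : V → ℕ) : (Rep S f).card = (S \ Fst S f).card := by
  refine card_bij (fun p _ => p.2) ?_ ?_ ?_
  · intro p hp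
    obtain ⟨hp1, h1, h2, -⟩ := mem_filter.1 hp
    obtain ⟨ha, hb⟩ := mem_product.1 hp1
    exact mem_sdiff.2 ⟨hb, fun h => (mem_filter.1 h).2 p.1 ha h1 h2⟩
  · intro p hp p' hp' h
    obtain ⟨hp1, -, h2, h3⟩ := mem_filter.1 hp
    obtain ⟨hp1', -, h2', h3'⟩ := mem_filter.1 hp'
    refine Prod.ext (Fst_inj S f (mem_coe.2 (mem_filter.2 ⟨(mem_product.1 hp1).1, h3⟩))
      (mem_coe.2 (mem_filter.2 ⟨(mem_product.1 hp1').1, h3'⟩)) ?_) h
    rw [h2, h2', h]
  · intro x hx
    obtain ⟨hx1, hx2⟩ := mem_sdiff.1 hx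
    obtain ⟨y, hy, hyx, hf⟩ := exists_Fst S f hx1
    refine ⟨(y, x), mem_filter.2 ⟨mem_product.2 ⟨(mem_filter.1 hy).1, hx1⟩,
      lt_of_le_of_ne hyx fun h => hx2 ?_, hf, (mem_filter.1 hy).2⟩, rfl⟩
    have h' : y = x := h
    exact h' ▸ hy

lemma card_Rep_add (S : Finset V) (f : V → ℕ) : (Rep S f).card + (Fst S f).card = S.card := by
  rw [card_Rep]; exact card_sdiff_add_card_eq_card (filter_subset _ _)

lemma card_image_eq (S : Finset V) (f : V → ℕ) : (S.image f).card = (Fst S f).card := by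
  rw [← card_image_of_injOn (Fst_inj S f)]
  congr 1
  refine Subset.antisymm (fun c hc => ?_) (image_subset_image (filter_subset _ _))
  obtain ⟨x, hx, rfl⟩ := mem_image.1 hc
  obtain ⟨y, hy, -, hf⟩ := exists_Fst S f hx
  exact mem_image.2 ⟨y, hy, hf⟩

lemma card_image_add_le {S A : Finset V} (hSA : S ⊆ A) (f : V → ℕ) :
    (A.image f).card + (Rep S f).card ≤ A.card := by
  have h1 : A.image f ⊆ (A \ (S \ Fst S f)).image f := by
    intro c hc
    obtain ⟨x, hx, rfl⟩ := mem_image.1 hc
    by_cases hxS : x ∈ S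
    · obtain ⟨y, hy, -, hf⟩ := exists_Fst S f hxS
      exact mem_image.2 ⟨y, mem_sdiff.2 ⟨hSA (mem_filter.1 hy).1,
        fun h => (mem_sdiff.1 h).2 hy⟩, hf⟩
    · exact mem_image.2 ⟨x, mem_sdiff.2 ⟨hx, fun h => hxS (mem_sdiff.1 h).1⟩, rfl⟩
  have h2 := (card_le_card h1).trans card_image_le
  have h3 := card_sdiff_add_card_eq_card (sdiff_subset.trans hSA : S \ Fst S f ⊆ A)
  rw [card_Rep]; omega

/-- double counting: recolour a repeated vertex with an unused colour -/
lemma key_count {A S : Finset V} {E : V → V → Prop} (hSA : S ⊆ A) (hl : ∀ a ∈ A, ¬ E a a)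
    {q : ℕ} (hq : A.card + 1 ≤ q) :
    ∑ f ∈ Col A E q, (Rep S f).card * ((Rep S f).card + 1) ≤
      ∑ f ∈ Col A E q, (Fst S f).card.choose 2 := by
  classical
  have h1 : ((Col A E q).sigma fun f => Rep S f ×ˢ (range q \ A.image f)).card ≤
      ((Col A E q).sigma fun g => (Fst S g ×ˢ Fst S g).filter fun p => p.1 < p.2).card := by
    refine card_le_card_of_injOn (fun w => ⟨update w.1 w.2.1.2 w.2.2, w.2.1⟩) ?_ ?_
    · rintro ⟨f, ⟨y, x⟩, c⟩ hw
      obtain ⟨hf, hw⟩ := mem_sigma.1 (mem_coe.1 hw)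
      obtain ⟨hp, hc⟩ := mem_product.1 hw
      obtain ⟨hp1, hyx, hfe, hmin⟩ := mem_filter.1 hp
      obtain ⟨hy, hx⟩ := mem_product.1 hp1
      obtain ⟨hcq, hcA⟩ := mem_sdiff.1 hc
      dsimp only at hf hyx hfe hmin hy hx hcq hcA
      have hcA' : ∀ a ∈ A, f a ≠ c := fun a ha h => hcA (mem_image.2 ⟨a, ha, h⟩)
      obtain ⟨h1, h2, h3⟩ := mem_Col.1 hf
      refine mem_coe.2 (mem_sigma.2 ⟨mem_Col.2 ⟨fun a ha => ?_, fun a ha => ?_,
        fun a ha b hb hab => ?_⟩, mem_filter.2 ⟨mem_product.2 ⟨mem_filter.2 ⟨hy, fun z hz hzy => ?_⟩,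
        mem_filter.2 ⟨hx, fun z hz hzx => ?_⟩⟩, hyx⟩⟩)
      · dsimp only
        by_cases hax : a = x
        · subst hax; simpa using hcq
        · rw [update_of_ne hax]; exact h1 a ha
      · dsimp only
        rw [update_of_ne fun h : a = x => ha (h ▸ hSA hx)]; exact h2 a ha
      · dsimp only
        by_cases hax : a = x
        · subst hax
          have hb' : b ≠ a := fun h => hl a ha (by subst h; exact hab)
          rw [update_self, update_of_ne hb']; exact (hcA' b hb).symm
        · by_cases hbx : b = x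
          · subst hbx
            rw [update_self, update_of_ne hax]; exact hcA' a ha
          · rw [update_of_ne hax, update_of_ne hbx]; exact h3 a ha b hb hab
      · dsimp only at hzy ⊢
        rw [update_of_ne (hzy.trans hyx).ne, update_of_ne hyx.ne]; exact hmin z hz hzy
      · dsimp only at hzx ⊢
        rw [update_of_ne hzx.ne, update_self]; exact hcA' z (hSA hz)
    · rintro ⟨f, ⟨y, x⟩, c⟩ hw ⟨f', ⟨y', x'⟩, c'⟩ hw' h
      obtain ⟨-, hw⟩ := mem_sigma.1 (mem_coe.1 hw)
      obtain ⟨-, hyx, hfe, -⟩ := mem_filter.1 (mem_product.1 hw).1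
      obtain ⟨-, hw'⟩ := mem_sigma.1 (mem_coe.1 hw')
      obtain ⟨-, -, hfe', -⟩ := mem_filter.1 (mem_product.1 hw').1
      dsimp only at hyx hfe hfe'
      simp only [Sigma.mk.injEq, heq_eq_eq, Prod.mk.injEq] at h
      obtain ⟨hu, rfl, rfl⟩ := h
      have hc : c = c' := by simpa using congrFun hu x
      have hne : ∀ a, a ≠ x → f a = f' a := fun a ha => by
        simpa [update_of_ne ha] using congrFun hu a
      have hff : f = f' := by
        funext a
        by_cases ha : a = x
        · rw [ha, ← hfe, ← hfe']; exact hne y hyx.ne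
        · exact hne a ha
      rw [hc, hff]
  rw [card_sigma, card_sigma] at h1
  refine le_trans (sum_le_sum fun f hf => ?_) (h1.trans (le_of_eq (sum_congr rfl fun g _ => ?_)))
  · rw [card_product]
    refine Nat.mul_le_mul_left _ ?_
    have hsub : A.image f ⊆ range q := by
      intro c hc
      obtain ⟨x, hx, rfl⟩ := mem_image.1 hc
      exact mem_range.2 ((mem_Col.1 hf).1 x hx)
    have := card_image_add_le hSA f
    rw [card_sdiff_of_subset hsub, card_range]; omega
  · exact card_product_filter_lt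

/-- the mean number of repeated colours on `S` is below `|S| / 2` -/
lemma key_mean {A S : Finset V} {E : V → V → Prop} (hSA : S ⊆ A) (hl : ∀ a ∈ A, ¬ E a a)
    {t : ℕ} (hq : A.card ≤ t) :
    (2 * (t : ℝ) + 1) * ∑ f ∈ Col A E (t + 1), ((Rep S f).card : ℝ) ≤
      t * S.card * (Col A E (t + 1)).card := by
  have h1 := key_count (E := E) hSA hl (Nat.succ_le_succ hq)
  have h2 : ∑ f ∈ Col A E (t + 1), ((Rep S f).card : ℝ) * ((Rep S f).card + 1) ≤
      ∑ f ∈ Col A E (t + 1), ((Fst S f).card : ℝ) * ((Fst S f).card - 1) / 2 := by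
    have := (Nat.cast_le (α := ℝ)).2 h1
    push_cast at this
    simpa only [Nat.cast_choose_two] using this
  have h3 : ∑ f ∈ Col A E (t + 1), (2 * (S.card : ℝ) + 1) * (Rep S f).card ≤
      ∑ f ∈ Col A E (t + 1), ((S.card : ℝ) ^ 2 + 2 * (((Rep S f).card : ℝ) * ((Rep S f).card + 1)
        - ((Fst S f).card : ℝ) * ((Fst S f).card - 1) / 2)) := by
    refine sum_le_sum fun f _ => ?_
    have h : ((Rep S f).card : ℝ) + (Fst S f).card = S.card := by exact_mod_cast card_Rep_add S f
    rw [← h]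
    have h0 : (0 : ℝ) ≤ (Rep S f).card := Nat.cast_nonneg _
    have h0' : (0 : ℝ) ≤ (Fst S f).card := Nat.cast_nonneg _
    nlinarith
  rw [sum_add_distrib, ← mul_sum, ← mul_sum, sum_sub_distrib, sum_const, nsmul_eq_mul] at h3
  set B := ∑ f ∈ Col A E (t + 1), ((Rep S f).card : ℝ)
  set P := ((Col A E (t + 1)).card : ℝ)
  set d := (S.card : ℝ)
  have hd : d ≤ t := by
    have : S.card ≤ t := (card_le_card hSA).trans hq
    simp only [d]; exact_mod_cast this
  have hd0 : 0 ≤ d := Nat.cast_nonneg _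
  have hP : 0 ≤ P := Nat.cast_nonneg _
  have h4 : (2 * d + 1) * B ≤ P * d ^ 2 := by linarith
  have ht : (0 : ℝ) ≤ t := Nat.cast_nonneg _
  have h5 : (2 * d + 1) * ((2 * t + 1) * B) ≤ (2 * d + 1) * (t * d * P) := by
    have h6 : (2 * (t : ℝ) + 1) * ((2 * d + 1) * B) ≤ (2 * t + 1) * (P * d ^ 2) :=
      mul_le_mul_of_nonneg_left h4 (by positivity)
    have h7 : 0 ≤ P * d * (t - d) := mul_nonneg (mul_nonneg hP hd0) (by linarith)
    nlinarith
  exact le_of_mul_le_mul_left h5 (by positivity)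

lemma sum_Rep (A S : Finset V) (E : V → V → Prop) (q : ℕ) :
    ∑ f ∈ Col A E q, ((Rep S f).card : ℝ) =
      ∑ p ∈ (S ×ˢ S).filter (fun p => p.1 < p.2), (((Col A E q).filter fun f =>
        f p.1 = f p.2 ∧ ∀ z ∈ S.filter (· < p.1), f z ≠ f p.1).card : ℝ) := by
  simp only [card_filter]
  push_cast
  rw [sum_comm]
  refine sum_congr rfl fun f _ => ?_
  rw [Rep, card_filter, sum_filter]
  push_cast
  refine sum_congr rfl fun p _ => ?_
  by_cases h : p.1 < p.2 <;> simp [h]

theorem main (t : ℕ) (n : ℕ) : ∀ (A K : Finset V) (E : V → V → Prop), A.card = n → K ⊆ A →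
    (∀ a ∈ K, ∀ b ∈ K, a ≠ b → E a b ∨ E b a) → n ≤ t + 1 →
    ((Col A E t).card : ℝ) * ((t : ℝ) / (t + 1)) ^ K.card ≤
      (1 - (K.card : ℝ) / (t + 1)) * ((t : ℝ) / (t + 1)) ^ n * (Col A E (t + 1)).card := by
  classical
  induction n using Nat.strong_induction_on with
  | _ n ih =>
  intro A K E hA hKA hK hn
  set c : ℝ := (t : ℝ) / (t + 1) with hc
  have hc0 : 0 ≤ c := by positivity
  have hq : (0 : ℝ) < t + 1 := by positivity
  have hKn : K.card ≤ n := hA ▸ card_le_card hKA
  have hw : 0 ≤ 1 - (K.card : ℝ) / (t + 1) := by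
    rw [sub_nonneg, div_le_one hq]; exact_mod_cast hKn.trans hn
  rcases A.eq_empty_or_nonempty with rfl | hne
  · have hK0 : K = ∅ := subset_empty.1 hKA
    have hC : ∀ q, Col (∅ : Finset V) E q = {fun _ => 0} := fun q => by
      ext f; simp [mem_Col, funext_iff]
    subst hK0
    simp only [card_empty] at hA
    simp [hC, ← hA]
  by_cases hz : Col A E t = ∅
  · rw [hz]; simp only [card_empty, Nat.cast_zero, zero_mul]; positivity
  obtain ⟨f0, hf0⟩ := nonempty_iff_ne_empty.2 hz
  have hl : ∀ a ∈ A, ¬ E a a := fun a ha h => (mem_Col.1 hf0).2.2 a ha a ha h rfl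
  have ht : 0 < t := by
    obtain ⟨a, ha⟩ := hne
    exact lt_of_le_of_lt (Nat.zero_le _) ((mem_Col.1 hf0).1 a ha)
  have hcpos : 0 < c := by
    have : (0 : ℝ) < t := by exact_mod_cast ht
    positivity
  by_cases hAK : A ⊆ K
  · -- complete graph
    obtain rfl : A = K := Subset.antisymm hAK hKA
    obtain ⟨u, hu⟩ := hne
    obtain ⟨m, rfl⟩ : ∃ m, n = m + 1 := ⟨n - 1, by have := card_pos.2 ⟨u, hu⟩; omega⟩
    have hm : (A.erase u).card = m := by rw [card_erase_of_mem hu]; omega
    have hext : ∀ q, ((Col A E q).card : ℝ) = (q - m) * (Col (A.erase u) E q).card := fun q => by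
      rw [card_Col_ext (S := A.erase u) hu (hl u hu) (fun x => ⟨fun h => ⟨h,
        hK u hu x (mem_of_mem_erase h) (ne_of_mem_erase h).symm⟩, fun h => h.1⟩) q,
        mul_comm, ← nsmul_eq_mul, ← sum_const]
      refine sum_congr rfl fun f hf => ?_
      rw [card_image_of_injOn, hm]
      intro a ha b hb hab
      by_contra hne
      have ha' := mem_coe.1 ha
      have hb' := mem_coe.1 hb
      rcases hK a (mem_of_mem_erase ha') b (mem_of_mem_erase hb') hne with h | h
      · exact (mem_Col.1 hf).2.2 a ha' b hb' h hab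
      · exact (mem_Col.1 hf).2.2 b hb' a ha' h hab.symm
    have h1 := ih m (Nat.lt_succ_self m) (A.erase u) (A.erase u) E hm Subset.rfl
      (fun a ha b hb => hK a (mem_of_mem_erase ha) b (mem_of_mem_erase hb)) (by omega)
    rw [hm] at h1
    rw [hext, hext, hA]
    have htm : (0 : ℝ) ≤ t - m := by
      have : m ≤ t := by omega
      rw [sub_nonneg]; exact_mod_cast this
    have h2 := mul_le_mul_of_nonneg_left h1 (mul_nonneg htm hc0)
    push_cast
    refine le_trans (le_of_eq ?_) (h2.trans (le_of_eq ?_))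
    · ring
    · field_simp
      ring
  · obtain ⟨u, hu, huK⟩ := not_subset.1 hAK
    obtain ⟨m, rfl⟩ : ∃ m, n = m + 1 := ⟨n - 1, by have := card_pos.2 ⟨u, hu⟩; omega⟩
    have hm : (A.erase u).card = m := by rw [card_erase_of_mem hu]; omega
    have hKA' : K ⊆ A.erase u := fun a ha => mem_erase.2 ⟨fun h => huK (h ▸ ha), hKA ha⟩
    set A' := A.erase u with hA'
    set S := A'.filter fun x => E u x ∨ E x u with hS
    have hSA : S ⊆ A' := filter_subset _ _
    have hl' : ∀ a ∈ A', ¬ E a a := fun a ha => hl a (mem_of_mem_erase ha)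
    have hext : ∀ q, ((Col A E q).card : ℝ) = (q - S.card) * (Col A' E q).card +
        ∑ f ∈ Col A' E q, ((Rep S f).card : ℝ) := fun q => by
      rw [card_Col_ext (S := S) hu (hl u hu) (fun x => mem_filter) q,
        mul_comm, ← nsmul_eq_mul, ← sum_const, ← sum_add_distrib]
      refine sum_congr rfl fun f _ => ?_
      have h : ((Rep S f).card : ℝ) + (Fst S f).card = S.card := by exact_mod_cast card_Rep_add S f
      rw [card_image_eq]; linarith
    have h1 := ih m (Nat.lt_succ_self m) A' K E hm hKA' hK (by omega)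
    have h2 : (∑ f ∈ Col A' E t, ((Rep S f).card : ℝ)) * c ^ K.card * c ≤
        (1 - (K.card : ℝ) / (t + 1)) * c ^ m * ∑ f ∈ Col A' E (t + 1), ((Rep S f).card : ℝ) := by
      rw [sum_Rep, sum_Rep, sum_mul, sum_mul, mul_sum]
      refine sum_le_sum ?_
      rintro ⟨y, x⟩ hp
      obtain ⟨hp1, hyx⟩ := mem_filter.1 hp
      obtain ⟨hy, hx⟩ := mem_product.1 hp1
      dsimp only at hyx hy hx ⊢
      obtain ⟨k, rfl⟩ : ∃ k, m = k + 1 := ⟨m - 1, by have := card_pos.2 ⟨x, hSA hx⟩; omega⟩
      have step : ∀ (x y : V) (Z : Finset V), x ∈ A' → y ∈ A' → y ≠ x → x ∉ K → Z ⊆ A'.erase x →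
          (((Col A' E t).filter fun f => f y = f x ∧ ∀ z ∈ Z, f z ≠ f y).card : ℝ) * c ^ K.card * c ≤
          (1 - (K.card : ℝ) / (t + 1)) * c ^ (k + 1) *
            ((Col A' E (t + 1)).filter fun f => f y = f x ∧ ∀ z ∈ Z, f z ≠ f y).card := by
        intro x y Z hx hy hyx hxK hZ
        rw [card_contract hx hy hyx (hl' x hx) hZ, card_contract hx hy hyx (hl' x hx) hZ]
        have h3 := ih k (by omega) (A'.erase x) K
          (fun a b => E a b ∨ (a = y ∧ (E x b ∨ E b x ∨ b ∈ Z)))
          (by rw [card_erase_of_mem hx]; omega)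
          (fun a ha => mem_erase.2 ⟨fun h => hxK (h ▸ ha), hKA' ha⟩)
          (fun a ha b hb hab => (hK a ha b hb hab).imp Or.inl Or.inl) (by omega)
        refine (mul_le_mul_of_nonneg_right h3 hc0).trans (le_of_eq ?_)
        ring
      by_cases hxK : x ∈ K
      · by_cases hyK : y ∈ K
        · have : ((Col A' E t).filter fun f =>
              f y = f x ∧ ∀ z ∈ S.filter (· < y), f z ≠ f y) = ∅ := by
            refine filter_eq_empty_iff.2 fun f hf h => ?_
            rcases hK y hyK x hxK hyx.ne with h' | h'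
            · exact (mem_Col.1 hf).2.2 y (hSA hy) x (hSA hx) h' h.1
            · exact (mem_Col.1 hf).2.2 x (hSA hx) y (hSA hy) h' h.1.symm
          rw [this]
          simp only [card_empty, Nat.cast_zero, zero_mul]
          positivity
        · have hsw : ∀ q, ((Col A' E q).filter fun f =>
              f y = f x ∧ ∀ z ∈ S.filter (· < y), f z ≠ f y) = ((Col A' E q).filter fun f =>
              f x = f y ∧ ∀ z ∈ S.filter (· < y), f z ≠ f x) := fun q => by
            refine filter_congr fun f _ => ⟨fun h => ⟨h.1.symm, h.1 ▸ h.2⟩,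
              fun h => ⟨h.1.symm, h.1 ▸ h.2⟩⟩
          rw [hsw, hsw]
          exact step y x _ (hSA hy) (hSA hx) hyx.ne' hyK fun z hz =>
            mem_erase.2 ⟨(mem_filter.1 hz).2.ne, hSA (mem_filter.1 hz).1⟩
      · exact step x y _ (hSA hx) (hSA hy) hyx.ne hxK fun z hz =>
          mem_erase.2 ⟨((mem_filter.1 hz).2.trans hyx).ne, hSA (mem_filter.1 hz).1⟩
    have h3 := key_mean (E := E) hSA hl' (t := t) (by omega)
    rw [hext, hext]
    set B0 := ∑ f ∈ Col A' E t, ((Rep S f).card : ℝ)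
    set B1 := ∑ f ∈ Col A' E (t + 1), ((Rep S f).card : ℝ)
    set P0 := ((Col A' E t).card : ℝ)
    set P1 := ((Col A' E (t + 1)).card : ℝ)
    set d := (S.card : ℝ)
    set W := (1 - (K.card : ℝ) / (t + 1)) * c ^ m with hW
    have hW0 : 0 ≤ W := by positivity
    have htd : (0 : ℝ) ≤ t - d := by
      have : S.card ≤ t := (card_le_card hSA).trans (by omega)
      rw [sub_nonneg]; simp only [d]; exact_mod_cast this
    have h4 := mul_le_mul_of_nonneg_left h1 (mul_nonneg htd hc0)
    have h5 : (t - d) * c * P1 + B1 ≤ c ^ 2 * ((t + 1 - d) * P1 + B1) := by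
      have : c ^ 2 * ((t + 1 - d) * P1 + B1) - ((t - d) * c * P1 + B1) =
          (t * d * P1 - (2 * t + 1) * B1) / (t + 1) ^ 2 := by
        rw [hc]; field_simp; ring
      have h6 : 0 ≤ (t * d * P1 - (2 * t + 1) * B1) / ((t : ℝ) + 1) ^ 2 :=
        div_nonneg (by linarith) (by positivity)
      linarith
    have h6 := mul_le_mul_of_nonneg_left h5 hW0
    refine le_of_mul_le_mul_left ?_ hcpos
    push_cast
    calc c * (((t - d) * P0 + B0) * c ^ K.card)
        = (t - d) * c * (P0 * c ^ K.card) + B0 * c ^ K.card * c := by ring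
      _ ≤ (t - d) * c * (W * P1) + W * B1 := add_le_add h4 h2
      _ = W * ((t - d) * c * P1 + B1) := by ring
      _ ≤ W * (c ^ 2 * ((t + 1 - d) * P1 + B1)) := h6
      _ = _ := by rw [hW]; ring

lemma card_coloring (G : SimpleGraph V) (q : ℕ) :
    Nat.card (G.Coloring (Fin q)) = (Col univ G.Adj q).card := by
  rw [← Nat.card_eq_finsetCard]
  refine Nat.card_congr
    ⟨fun C => ⟨fun v => (C v).val, mem_Col.2 ⟨fun x _ => (C x).isLt, fun x hx => absurd (mem_univ x) hx,
        fun a _ b _ hab h => C.valid hab (Fin.ext h)⟩⟩,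
      fun f => SimpleGraph.Coloring.mk (fun v => ⟨f.1 v, (mem_Col.1 f.2).1 v (mem_univ v)⟩)
        fun {a b} hab h => (mem_Col.1 f.2).2.2 a (mem_univ a) b (mem_univ b) hab
          (congrArg Fin.val h), fun C => ?_, fun f => ?_⟩
  · ext v; rfl
  · rfl

end Pool.Agent.H292Z.Chrom
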