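import Pool.Agent.H292Z.Sys

/-!
Every finite transitive subset of a Euclidean space embeds in an orbit of a finite 2-group of
isometries.
-/

set_option autoImplicit false

namespace Pool.Agent.H292Z

/-- Euclidean space -/
abbrev Eu (n : ℕ) : Type := EuclideanSpace ℝ (Fin n)

/-- permuting coordinates -/
noncomputable def permIso {n : ℕ} : Equiv.Perm (Fin n) →* (Eu n ≃ᵢ Eu n) where
  toFun τ := (LinearIsometryEquiv.piLpCongrLeft 2 ℝ ℝ τ).toIsometryEquiv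
  map_one' := by ext u k; rfl
  map_mul' τ τ' := by ext u k; rfl

theorem permIso_apply {n : ℕ} (τ : Equiv.Perm (Fin n)) (u : Eu n) (k : Fin n) :
    permIso τ u k = u (τ.symm k) := rfl

theorem exists_ext {d n : ℕ} (F ι : Eu d → Eu n) (hF : Isometry F) (hι : Isometry ι) :
    ∃ φ : Eu n ≃ᵢ Eu n, ∀ u, φ (ι u) = F u := by
  let Fa := hF.affineIsometryOfStrictConvexSpace
  let ιa := hι.affineIsometryOfStrictConvexSpace
  let L := Fa.linearIsometry
  let J := ιa.linearIsometry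
  let L' : (LinearMap.range J.toLinearMap) →ₗᵢ[ℝ] Eu n :=
    L.comp J.equivRange.symm.toLinearIsometry
  let M : Eu n ≃ₗᵢ[ℝ] Eu n := L'.extend.toLinearIsometryEquiv rfl
  have hM : ∀ u, M (J u) = L u := by
    intro u
    have := L'.extend_apply (J.equivRange u)
    have e : L' (J.equivRange u) = L u := by simp [L']
    rw [e] at this
    exact this
  refine ⟨((IsometryEquiv.addRight (-ι 0)).trans M.toIsometryEquiv).trans
    (IsometryEquiv.addRight (F 0)), fun u => ?_⟩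
  have e1 : J u = ι u - ι 0 := by
    have := ιa.map_vsub u 0
    simpa [J, ιa] using this
  have e2 : L u = F u - F 0 := by
    have := Fa.map_vsub u 0
    simpa [L, Fa] using this
  change M (ι u + -ι 0) + F 0 = F u
  rw [← sub_eq_add_neg, ← e1, hM, e2, sub_add_cancel]

theorem isometry_incl {d n : ℕ} (h : d ≤ n) :
    Isometry (fun x : Eu d => (WithLp.toLp 2 fun k : Fin n =>
      if h : k.val < d then x ⟨k.val, h⟩ else 0 : Eu n)) := by
  refine Isometry.of_dist_eq fun x y => ?_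
  rw [EuclideanSpace.dist_eq, EuclideanSpace.dist_eq]
  congr 1
  symm
  refine Fintype.sum_of_injective (Fin.castLE h) (Fin.castLE_injective h) _ _ ?_ ?_
  · intro k hk
    have : ¬ k.val < d := fun hk' => hk ⟨⟨k.val, hk'⟩, rfl⟩
    simp [this]
  · intro i
    simp

theorem orbit_embed {d : ℕ} (X : Set (Eu d)) (hX : X.Finite) (hne : X.Nonempty)
    (ht : ∀ x ∈ X, ∀ y ∈ X, ∃ g : Eu d ≃ᵢ Eu d, g '' X = X ∧ g x = y) :
    ∃ (n : ℕ) (_ : d ≤ n) (F : Eu d → Eu n) (H : Subgroup (Eu n ≃ᵢ Eu n)),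
      Isometry F ∧ Finite H ∧ IsPGroup 2 H ∧ ∀ x ∈ X, ∀ y ∈ X, ∃ h ∈ H, h (F x) = F y := by
  classical
  have : Finite X := hX
  let P := {π : Equiv.Perm X // ∃ g : Eu d ≃ᵢ Eu d, ∀ x : X, g x = π x}
  have hP : Nonempty P := ⟨⟨1, IsometryEquiv.refl _, fun _ => rfl⟩⟩
  obtain ⟨m, hm⟩ : ∃ m, Nat.card P = m + 1 := Nat.exists_eq_succ_of_ne_zero Nat.card_pos.ne'
  let ε : P ≃ Fin (m + 1) := Finite.equivFinOfCardEq hm
  let gs : Fin (m + 1) → (Eu d ≃ᵢ Eu d) := fun j => (ε.symm j).2.choose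
  have hgs : ∀ j (x : X), gs j x = (ε.symm j).1 x := fun j => (ε.symm j).2.choose_spec
  let wd : X → Fin (m + 1) → X := fun x j => (ε.symm j).1 x
  have hwd : ∀ x y : X, cont (wd x) = cont (wd y) := by
    intro x y
    obtain ⟨g, hg, hgx⟩ := ht x x.2 y y.2
    have hmem : ∀ u, u ∈ X ↔ g u ∈ X := by
      intro u
      constructor
      · intro hu; rw [← hg]; exact ⟨u, hu, rfl⟩
      · intro hu
        rw [← hg] at hu
        obtain ⟨v, hv, hvu⟩ := hu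
        rwa [← g.injective hvu]
    let δ : Equiv.Perm X := g.toEquiv.subtypeEquiv hmem
    have hδ : ∀ u : X, g u = δ u := fun _ => rfl
    have hδ' : ∀ u : X, g.symm u = δ⁻¹ u := by
      intro u
      apply g.injective
      rw [g.apply_symm_apply, hδ]
      simp
    let R : P ≃ P :=
      { toFun := fun π => ⟨π.1 * δ, by
          obtain ⟨g', hg'⟩ := π.2
          exact ⟨g.trans g', fun u => by
            change g' (g u) = _
            rw [hδ, hg']; rfl⟩⟩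
        invFun := fun π => ⟨π.1 * δ⁻¹, by
          obtain ⟨g', hg'⟩ := π.2
          exact ⟨g.symm.trans g', fun u => by
            change g' (g.symm u) = _
            rw [hδ', hg']; rfl⟩⟩
        left_inv := fun π => by simp
        right_inv := fun π => by simp }
    rw [← cont_perm (wd x) ((ε.symm.trans R).trans ε)]
    congr 1
    funext j
    have : δ x = y := Subtype.ext hgx
    simp [wd, R, this]
  obtain ⟨S, lab, D, hD, hdeg, hsym⟩ := symQ m X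
  have := Fintype.ofFinite S.Ω
  let A : ℕ := (Finset.univ.filter (fun ω => (lab ω).isLeft)).card
  have hA : 0 < A := by
    have : 0 < Nat.card {n // lab n = Sum.inl 0} := by rw [hdeg 0]; exact hD
    obtain ⟨⟨ω, hω⟩⟩ := (Nat.card_pos_iff.1 this).1
    exact Finset.card_pos.2 ⟨ω, by simp [hω]⟩
  have hΩ : 0 < Fintype.card S.Ω := lt_of_lt_of_le hA (Finset.card_le_univ _)
  let n := Fintype.card (S.Ω × Fin d)
  let e : S.Ω × Fin d ≃ Fin n := Fintype.equivFin _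
  let pt : Eu d → S.Ω → Eu d := fun u ω => Sum.elim (fun j => gs j u) (fun s => s.1) (lab ω)
  let r : ℝ := (√(A : ℝ))⁻¹
  let F : Eu d → Eu n := fun u => WithLp.toLp 2 fun k => r * pt u (e.symm k).1 (e.symm k).2
  let τ : S.G →* Equiv.Perm (Fin n) :=
    { toFun := fun g => (e.symm.trans
        (Equiv.prodCongr (MulAction.toPerm g) (Equiv.refl (Fin d)))).trans e
      map_one' := by ext k; simp [Prod.map]
      map_mul' := fun g h => by ext k; simp [mul_smul, Prod.map] }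
  let ρ : S.G →* (Eu n ≃ᵢ Eu n) := permIso.comp τ
  obtain ⟨k, hk⟩ := S.pow2
  have hfin : Finite S.G := Nat.finite_of_card_ne_zero (by rw [hk]; positivity)
  refine ⟨n, ?_, F, ρ.range, ?_, ?_, ?_, ?_⟩
  · simp only [n, Fintype.card_prod, Fintype.card_fin]
    exact Nat.le_mul_of_pos_left d hΩ
  · refine Isometry.of_dist_eq fun u v => ?_
    rw [← sq_eq_sq₀ dist_nonneg dist_nonneg, EuclideanSpace.dist_sq_eq]
    have e1 : ∑ k, dist (F u k) (F v k) ^ 2 =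
        ∑ p : S.Ω × Fin d, r ^ 2 * dist (pt u p.1 p.2) (pt v p.1 p.2) ^ 2 := by
      refine Fintype.sum_equiv e.symm _ _ fun k => ?_
      simp only [F, Real.dist_eq, sq_abs]
      ring
    rw [e1, Fintype.sum_prod_type]
    have e2 : ∀ ω : S.Ω, ∑ i : Fin d, r ^ 2 * dist (pt u ω i) (pt v ω i) ^ 2 =
        if (lab ω).isLeft then r ^ 2 * dist u v ^ 2 else 0 := by
      intro ω
      rw [← Finset.mul_sum, ← EuclideanSpace.dist_sq_eq]
      simp only [pt]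
      cases lab ω with
      | inl j => simp [(gs j).dist_eq]
      | inr s => simp
    rw [Finset.sum_congr rfl fun ω _ => e2 ω, ← Finset.sum_filter, Finset.sum_const,
      nsmul_eq_mul]
    have hA' : (0 : ℝ) < A := by exact_mod_cast hA
    change (A : ℝ) * (r ^ 2 * dist u v ^ 2) = _
    simp only [r, inv_pow, Real.sq_sqrt hA'.le]
    field_simp
  · exact Finite.of_surjective _ ρ.rangeRestrict_surjective
  · exact (IsPGroup.of_card hk).of_surjective _ ρ.rangeRestrict_surjective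
  · intro x hx y hy
    obtain ⟨g, hg⟩ := hsym _ _ (hwd ⟨x, hx⟩ ⟨y, hy⟩)
    have hpt : ∀ (u : X) ω, pt u ω = (ev lab (wd u) ω).1 := by
      intro u ω
      simp only [pt, ev]
      cases lab ω with
      | inl j => exact hgs j u
      | inr s => rfl
    refine ⟨ρ g, ⟨g, rfl⟩, ?_⟩
    ext k
    change r * pt x (e.symm ((τ g).symm k)).1 (e.symm ((τ g).symm k)).2 =
      r * pt y (e.symm k).1 (e.symm k).2
    have e3 : e.symm ((τ g).symm k) = (g⁻¹ • (e.symm k).1, (e.symm k).2) := by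
      simp [τ, Prod.map]
    rw [e3]
    have e4 := hg (g⁻¹ • (e.symm k).1)
    rw [smul_inv_smul] at e4
    have e5 := hpt ⟨x, hx⟩ (g⁻¹ • (e.symm k).1)
    have e6 := hpt ⟨y, hy⟩ (e.symm k).1
    simp only at e5 e6
    rw [e5, e6, e4]

theorem transitive_sub {d : ℕ} (X : Set (Eu d)) (hX : X.Finite)
    (ht : ∀ x ∈ X, ∀ y ∈ X, ∃ g : Eu d ≃ᵢ Eu d, g '' X = X ∧ g x = y) :
    ∃ (n : ℕ) (_ : d ≤ n) (Y : Set (Eu n)) (F : Eu d → Eu n) (H : Subgroup (Eu n ≃ᵢ Eu n)),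
      Y.Finite ∧ Y.Nonempty ∧ Isometry F ∧ (∀ x ∈ X, F x ∈ Y) ∧ Finite H ∧ IsPGroup 2 H ∧
      Group.IsSolvable H ∧ (∀ h ∈ H, h '' Y = Y) ∧ ∀ y ∈ Y, ∀ z ∈ Y, ∃ h ∈ H, h y = z := by
  have main : ∀ X : Set (Eu d), X.Finite → X.Nonempty →
      (∀ x ∈ X, ∀ y ∈ X, ∃ g : Eu d ≃ᵢ Eu d, g '' X = X ∧ g x = y) →
      ∃ (n : ℕ) (_ : d ≤ n) (Y : Set (Eu n)) (F : Eu d → Eu n) (H : Subgroup (Eu n ≃ᵢ Eu n)),
      Y.Finite ∧ Y.Nonempty ∧ Isometry F ∧ (∀ x ∈ X, F x ∈ Y) ∧ Finite H ∧ IsPGroup 2 H ∧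
      Group.IsSolvable H ∧ (∀ h ∈ H, h '' Y = Y) ∧ ∀ y ∈ Y, ∀ z ∈ Y, ∃ h ∈ H, h y = z := by
    intro X hX hne ht
    obtain ⟨n, hn, F, H, hF, hfin, hp, hH⟩ := orbit_embed X hX hne ht
    obtain ⟨x₀, hx₀⟩ := hne
    have : Fact (Nat.Prime 2) := ⟨Nat.prime_two⟩
    have hnil : Group.IsNilpotent H := hp.isNilpotent
    refine ⟨n, hn, Set.range (fun h : H => (h : Eu n ≃ᵢ Eu n) (F x₀)), F, H, Set.finite_range _,
      Set.range_nonempty _, hF, ?_, hfin, hp, inferInstance, ?_, ?_⟩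
    · intro x hx
      obtain ⟨h, hh, e⟩ := hH x₀ hx₀ x hx
      exact ⟨⟨h, hh⟩, e⟩
    · intro h hh
      ext y
      constructor
      · rintro ⟨_, ⟨h', rfl⟩, rfl⟩
        exact ⟨⟨h, hh⟩ * h', rfl⟩
      · rintro ⟨h', rfl⟩
        refine ⟨_, ⟨(⟨h, hh⟩ : H)⁻¹ * h', rfl⟩, ?_⟩
        exact h.apply_symm_apply _
    · rintro _ ⟨h, rfl⟩ _ ⟨h', rfl⟩
      refine ⟨(h' * h⁻¹ : H), (h' * h⁻¹).2, ?_⟩
      change (h' : Eu n ≃ᵢ Eu n) ((h : Eu n ≃ᵢ Eu n).symm _) = _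
      rw [IsometryEquiv.symm_apply_apply]
  rcases X.eq_empty_or_nonempty with rfl | hne
  · obtain ⟨n, hn, Y, F, H, h1, h2, h3, -, h5⟩ := main {0} (Set.finite_singleton _)
      (Set.singleton_nonempty _) (by
        rintro _ rfl _ rfl
        exact ⟨IsometryEquiv.refl _, Set.image_singleton, rfl⟩)
    exact ⟨n, hn, Y, F, H, h1, h2, h3, by simp, h5⟩
  · exact main X hX hne ht

theorem transitive_subsoluble {d : ℕ} (X : Set (Eu d)) (hX : X.Finite)
    (ht : ∀ x ∈ X, ∀ y ∈ X, ∃ g : Eu d ≃ᵢ Eu d, g '' X = X ∧ g x = y) :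
    ∃ (n : ℕ) (_ : d ≤ n) (Y : Set (Eu n)), Y.Finite ∧ Y.Nonempty ∧
      (∃ H : Subgroup (Eu n ≃ᵢ Eu n), Group.IsSolvable H ∧ Finite H ∧ IsPGroup 2 H ∧
        (∀ h ∈ H, h '' Y = Y) ∧ ∀ y ∈ Y, ∀ z ∈ Y, ∃ h ∈ H, h y = z) ∧
      ∃ φ : Eu n ≃ᵢ Eu n, ∀ x ∈ X,
        φ (WithLp.toLp 2 fun k : Fin n => if h : k.val < d then x ⟨k.val, h⟩ else 0) ∈ Y := by
  obtain ⟨n, hn, Y, F, H, h1, h2, h3, h4, h5, h6, h7, h8, h9⟩ := transitive_sub X hX ht
  obtain ⟨φ, hφ⟩ := exists_ext F _ h3 (isometry_incl hn)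
  exact ⟨n, hn, Y, h1, h2, ⟨H, h7, h5, h6, h8, h9⟩, φ, fun x hx => by rw [hφ]; exact h4 x hx⟩

end Pool.Agent.H292Z
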