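import Mathlib

/-!
Block embeddings and a Ramsey property for relations on words.
-/

set_option autoImplicit false

namespace Pool.Agent.H292Z

/-- Evaluate a labelling (each position is a variable or a constant letter) at a word. -/
def ev {N V L : Type} (lab : N → V ⊕ L) (x : V → L) : N → L :=
  fun n => Sum.elim x id (lab n)

/-- Every variable occurs exactly `d` times. -/
def Deg {N V L : Type} (lab : N → V ⊕ L) (d : ℕ) : Prop :=
  ∀ v, Nat.card {n // lab n = Sum.inl v} = d

/-- Block Ramsey property of degree `d` for a relation `E` on words. -/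
def Ram (V L : Type) (E : (V → L) → (V → L) → Prop) (d : ℕ) : Prop :=
  ∀ (K : Type) [Finite K], ∃ (N : Type) (_ : Finite N), ∀ c : (N → L) → K,
    ∃ lab : N → V ⊕ L, Deg lab d ∧ ∀ x y, E x y → c (ev lab x) = c (ev lab y)

/-- Composition of labellings. -/
def comp {N W V L : Type} (lab : N → W ⊕ L) (μ : W → V ⊕ L) : N → V ⊕ L :=
  fun n => Sum.elim μ Sum.inr (lab n)

theorem ev_comp {N W V L : Type} (lab : N → W ⊕ L) (μ : W → V ⊕ L) (x : V → L) :
    ev (comp lab μ) x = ev lab (ev μ x) := by
  funext n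
  simp only [ev, comp]
  cases lab n <;> simp [ev]

theorem deg_comp {N W V L : Type} [Finite N] [Finite W] {lab : N → W ⊕ L} {μ : W → V ⊕ L}
    {d e : ℕ} (h1 : Deg lab d) (h2 : Deg μ e) : Deg (comp lab μ) (e * d) := by
  intro v
  classical
  have := Fintype.ofFinite W
  let f : (Σ w : {w // μ w = Sum.inl v}, {n // lab n = Sum.inl w.1}) →
      {n // comp lab μ n = Sum.inl v} :=
    fun p => ⟨p.2.1, by simp [comp, p.2.2, p.1.2]⟩
  have hf : Function.Bijective f := by
    constructor
    · rintro ⟨⟨w, hw⟩, ⟨n, hn⟩⟩ ⟨⟨w', hw'⟩, ⟨n', hn'⟩⟩ h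
      have hnn : n = n' := congrArg Subtype.val h
      subst hnn
      have : w = w' := Sum.inl_injective (hn.symm.trans hn')
      subst this
      rfl
    · rintro ⟨n, hn⟩
      simp only [comp] at hn
      cases hl : lab n with
      | inl w =>
        rw [hl] at hn
        exact ⟨⟨⟨w, hn⟩, ⟨n, hl⟩⟩, rfl⟩
      | inr a => rw [hl] at hn; simp at hn
  rw [← Nat.card_congr (Equiv.ofBijective f hf), Nat.card_sigma]
  simp only [h1 _, Finset.sum_const, Finset.card_univ, smul_eq_mul]
  rw [← Nat.card_eq_fintype_card, h2 v]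

theorem Ram.mono {V L : Type} {E E' : (V → L) → (V → L) → Prop} {d : ℕ}
    (h : Ram V L E d) (hE : ∀ x y, E' x y → Relation.EqvGen E x y) : Ram V L E' d := by
  intro K _
  obtain ⟨N, hN, hc⟩ := h K
  refine ⟨N, hN, fun c => ?_⟩
  obtain ⟨lab, hd, hl⟩ := hc c
  refine ⟨lab, hd, fun x y hxy => ?_⟩
  have key : ∀ x y, Relation.EqvGen E x y → c (ev lab x) = c (ev lab y) := by
    intro x y h
    induction h with
    | rel a b hab => exact hl a b hab
    | refl a => rfl
    | symm a b _ ih => exact ih.symm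
    | trans a b e _ _ ih1 ih2 => exact ih1.trans ih2
  exact key x y (hE x y hxy)

theorem Ram.pull {W V L : Type} [Finite W] {E : (W → L) → (W → L) → Prop} {d e : ℕ}
    (h : Ram W L E d) (μ : W → V ⊕ L) (hμ : Deg μ e) :
    Ram V L (fun x y => E (ev μ x) (ev μ y)) (e * d) := by
  intro K _
  obtain ⟨N, hN, hc⟩ := h K
  refine ⟨N, hN, fun c => ?_⟩
  obtain ⟨lab, hd, hl⟩ := hc c
  refine ⟨comp lab μ, deg_comp hd hμ, fun x y hxy => ?_⟩
  rw [ev_comp, ev_comp]
  exact hl _ _ hxy

theorem deg_equiv {W V L : Type} (e : W ≃ V) :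
    Deg (fun w => (Sum.inl (e w) : V ⊕ L)) 1 := by
  intro v
  rw [Nat.card_eq_one_iff_exists]
  refine ⟨⟨e.symm v, by simp⟩, ?_⟩
  rintro ⟨w, hw⟩
  have : e w = v := Sum.inl_injective hw
  subst this
  simp

theorem Ram.equiv {W V L : Type} [Finite W] {E : (W → L) → (W → L) → Prop} {d : ℕ}
    (h : Ram W L E d) (e : W ≃ V) :
    Ram V L (fun x y => E (fun w => x (e w)) (fun w => y (e w))) d := by
  have := h.pull _ (deg_equiv (L := L) e)
  rw [one_mul] at this
  exact this

theorem Ram.sum {V₁ V₂ L : Type} [Finite V₁] [Finite L]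
    {E₁ : (V₁ → L) → (V₁ → L) → Prop} {E₂ : (V₂ → L) → (V₂ → L) → Prop} {d : ℕ}
    (h₁ : Ram V₁ L E₁ d) (h₂ : Ram V₂ L E₂ d) :
    Ram (V₁ ⊕ V₂) L (fun x y => E₁ (fun v => x (Sum.inl v)) (fun v => y (Sum.inl v)) ∧
      E₂ (fun v => x (Sum.inr v)) (fun v => y (Sum.inr v))) d := by
  intro K _
  obtain ⟨N₂, hN₂, hc₂⟩ := h₂ ((V₁ → L) → K)
  obtain ⟨N₁, hN₁, hc₁⟩ := h₁ ((N₂ → L) → K)
  refine ⟨N₁ ⊕ N₂, inferInstance, fun c => ?_⟩
  obtain ⟨lab₁, hd₁, hl₁⟩ := hc₁ (fun u₁ u₂ => c (Sum.elim u₁ u₂))
  obtain ⟨lab₂, hd₂, hl₂⟩ := hc₂ (fun u₂ x₁ => c (Sum.elim (ev lab₁ x₁) u₂))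
  let lab : N₁ ⊕ N₂ → (V₁ ⊕ V₂) ⊕ L :=
    Sum.elim (fun n => Sum.map Sum.inl id (lab₁ n)) (fun n => Sum.map Sum.inr id (lab₂ n))
  have hev : ∀ x : V₁ ⊕ V₂ → L, ev lab x =
      Sum.elim (ev lab₁ fun v => x (Sum.inl v)) (ev lab₂ fun v => x (Sum.inr v)) := by
    intro x
    funext n
    cases n with
    | inl n => simp only [ev, lab, Sum.elim_inl]; cases lab₁ n <;> simp
    | inr n => simp only [ev, lab, Sum.elim_inr]; cases lab₂ n <;> simp
  refine ⟨lab, ?_, fun x y hxy => ?_⟩
  · intro v
    cases v with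
    | inl v =>
      rw [← hd₁ v]
      symm
      let f : {n // lab₁ n = Sum.inl v} → {n // lab n = Sum.inl (Sum.inl v)} :=
        fun p => ⟨Sum.inl p.1, by simp [lab, p.2]⟩
      refine Nat.card_congr (Equiv.ofBijective f ⟨?_, ?_⟩)
      · intro a b h
        exact Subtype.ext (Sum.inl_injective (congrArg Subtype.val h))
      · rintro ⟨n, hn⟩
        cases n with
        | inl n =>
          refine ⟨⟨n, ?_⟩, rfl⟩
          simp only [lab, Sum.elim_inl] at hn
          cases hl : lab₁ n <;> rw [hl] at hn <;> simp_all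
        | inr n =>
          exfalso
          simp only [lab, Sum.elim_inr] at hn
          cases hl : lab₂ n <;> rw [hl] at hn <;> simp_all
    | inr v =>
      rw [← hd₂ v]
      symm
      let f : {n // lab₂ n = Sum.inl v} → {n // lab n = Sum.inl (Sum.inr v)} :=
        fun p => ⟨Sum.inr p.1, by simp [lab, p.2]⟩
      refine Nat.card_congr (Equiv.ofBijective f ⟨?_, ?_⟩)
      · intro a b h
        exact Subtype.ext (Sum.inr_injective (congrArg Subtype.val h))
      · rintro ⟨n, hn⟩
        cases n with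
        | inr n =>
          refine ⟨⟨n, ?_⟩, rfl⟩
          simp only [lab, Sum.elim_inr] at hn
          cases hl : lab₂ n <;> rw [hl] at hn <;> simp_all
        | inl n =>
          exfalso
          simp only [lab, Sum.elim_inl] at hn
          cases hl : lab₁ n <;> rw [hl] at hn <;> simp_all
  · rw [hev, hev]
    have a := congrFun (hl₁ _ _ hxy.1) (ev lab₂ fun v => x (Sum.inr v))
    have b := congrFun (hl₂ _ _ hxy.2) (fun v => y (Sum.inl v))
    exact a.trans b

theorem Ram.pow {V L : Type} [Finite V] [Finite L] {E : (V → L) → (V → L) → Prop} {d : ℕ}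
    (h : Ram V L E d) (M : Type) [hM : Finite M] :
    Ram (M × V) L (fun x y => ∀ m, E (fun v => x (m, v)) (fun v => y (m, v))) d := by
  refine Finite.induction_empty_option (P := fun M => Finite M →
    Ram (M × V) L (fun x y => ∀ m, E (fun v => x (m, v)) (fun v => y (m, v))) d)
    ?_ ?_ ?_ M hM
  · intro M M' e ih hM'
    have : Finite M := Finite.of_equiv _ e.symm
    refine ((ih this).equiv (Equiv.prodCongr e (Equiv.refl V))).mono ?_
    intro x y hxy
    exact Relation.EqvGen.rel _ _ (fun m => hxy (e m))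
  · intro _ K _
    refine ⟨PEmpty, inferInstance, fun c => ⟨fun n => n.elim, fun v => v.1.elim, ?_⟩⟩
    intro x y _
    congr 1
    funext n
    exact n.elim
  · intro M _ ih _
    refine ((h.sum (ih inferInstance)).equiv (optionProdEquiv (α := M) (β := V)).symm).mono ?_
    intro x y hxy
    refine Relation.EqvGen.rel _ _ ⟨?_, fun m => ?_⟩
    · exact hxy none
    · exact hxy (some m)

/-- Composition: a Ramsey statement over the alphabet of classes. -/
theorem Ram.wreath {W V L : Type} [Finite W] [Finite V] [Finite L] (s : Setoid (V → L))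
    {d d' : ℕ} (h : Ram V L s d)
    {E' : (W → Quotient s) → (W → Quotient s) → Prop} (h' : Ram W (Quotient s) E' d') :
    Ram (W × V) L (fun x y => E' (fun w => Quotient.mk s (fun v => x (w, v)))
      (fun w => Quotient.mk s (fun v => y (w, v)))) (d' * d) := by
  intro K _
  obtain ⟨M, hM, hc'⟩ := h' K
  obtain ⟨N, hN, hc⟩ := h.pow M K
  refine ⟨N, hN, fun c => ?_⟩
  obtain ⟨lab, hd, hl⟩ := hc c
  obtain ⟨lab', hd', hl'⟩ :=
    hc' (fun z => c (ev lab (fun p => (z p.1).out p.2)))
  let μ : M × V → (W × V) ⊕ L := fun p =>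
    Sum.elim (fun w => Sum.inl (w, p.2)) (fun q => Sum.inr (q.out p.2)) (lab' p.1)
  have hμ : Deg μ d' := by
    rintro ⟨w, v⟩
    rw [← hd' w]
    symm
    let f : {m // lab' m = Sum.inl w} → {p // μ p = Sum.inl (w, v)} :=
      fun p => ⟨(p.1, v), by simp [μ, p.2]⟩
    refine Nat.card_congr (Equiv.ofBijective f ⟨?_, ?_⟩)
    · intro a b h
      exact Subtype.ext (congrArg Prod.fst (congrArg Subtype.val h))
    · rintro ⟨⟨m, v'⟩, hn⟩
      simp only [μ] at hn
      cases hl : lab' m with
      | inl w' =>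
        rw [hl] at hn
        simp only [Sum.elim_inl, Sum.inl.injEq, Prod.mk.injEq] at hn
        obtain ⟨rfl, rfl⟩ := hn
        exact ⟨⟨m, hl⟩, rfl⟩
      | inr q => rw [hl] at hn; simp at hn
  refine ⟨comp lab μ, deg_comp hd hμ, fun x y hxy => ?_⟩
  rw [ev_comp, ev_comp]
  have key : ∀ x : W × V → L, c (ev lab (ev μ x)) =
      c (ev lab (fun p => (ev lab' (fun w => Quotient.mk s (fun v => x (w, v))) p.1).out p.2)) := by
    intro x
    apply hl
    intro m
    simp only [ev, μ]
    cases lab' m with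
    | inl w =>
      simp only [Sum.elim_inl]
      exact s.symm (Quotient.mk_out (s := s) (fun v => x (w, v)))
    | inr q =>
      simp only [Sum.elim_inr, id]
      exact s.refl _
  rw [key x, key y]
  exact hl' _ _ hxy

/-- Pigeonhole: one prescribed pair of letters can be swapped. -/
theorem ram_pigeon (L : Type) (a b : L) :
    Ram Bool L (fun x y => x false = a ∧ x true = b ∧ y false = b ∧ y true = a) 1 := by
  intro K _
  classical
  have := Fintype.ofFinite K
  refine ⟨Option K, inferInstance, fun c => ?_⟩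
  obtain ⟨i, j, hij, hc⟩ := Fintype.exists_ne_map_eq_of_card_lt
    (fun i : Option K => c (fun n => if n = i then b else a)) (by simp)
  let lab : Option K → Bool ⊕ L := fun n =>
    if n = i then Sum.inl true else if n = j then Sum.inl false else Sum.inr a
  refine ⟨lab, ?_, ?_⟩
  · intro v
    rw [Nat.card_eq_one_iff_exists]
    cases v with
    | true =>
      refine ⟨⟨i, by simp [lab]⟩, ?_⟩
      rintro ⟨n, hn⟩
      apply Subtype.ext
      by_contra hni
      simp only [lab] at hn hni
      rw [if_neg hni] at hn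
      split_ifs at hn
      simp at hn
    | false =>
      refine ⟨⟨j, by simp [lab, hij.symm]⟩, ?_⟩
      rintro ⟨n, hn⟩
      apply Subtype.ext
      by_contra hnj
      simp only [lab] at hn hnj
      rw [if_neg hnj] at hn
      split_ifs at hn
      simp at hn
  · rintro x y ⟨h1, h2, h3, h4⟩
    have e1 : ev lab x = fun n => if n = i then b else a := by
      funext n
      simp only [ev, lab]
      split_ifs <;> simp [h1, h2]
    have e2 : ev lab y = fun n => if n = j then b else a := by
      funext n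
      simp only [ev, lab]
      by_cases hi : n = i
      · subst hi; simp [h4, hij]
      · by_cases hj : n = j
        · subst hj; simp [hi, h3]
        · simp [hi, hj]
    rw [e1, e2]
    exact hc

theorem ram_eq (V L : Type) [Finite V] : Ram V L (fun x y => x = y) 1 := by
  intro K _
  refine ⟨V, inferInstance, fun c => ⟨fun v => Sum.inl v, deg_equiv (Equiv.refl V), ?_⟩⟩
  rintro x y rfl
  rfl

/-- swap of a pair -/
def sw {L : Type} (x : Bool → L) : Bool → L := fun t => x (!t)

theorem sw_sw {L : Type} (x : Bool → L) : sw (sw x) = x := by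
  funext t; simp [sw]

/-- the equivalence relation that swaps the pairs in `T` -/
def swS {L : Type} (T : Set (Bool → L)) : Setoid (Bool → L) where
  r x y := x = y ∨ (y = sw x ∧ (x ∈ T ∨ y ∈ T))
  iseqv :=
    { refl := fun _ => Or.inl rfl
      symm := by
        rintro x y (rfl | ⟨rfl, h⟩)
        · exact Or.inl rfl
        · exact Or.inr ⟨(sw_sw x).symm, h.symm⟩
      trans := by
        rintro x y z (rfl | ⟨rfl, h⟩) (rfl | ⟨rfl, h'⟩)
        · exact Or.inl rfl
        · exact Or.inr ⟨rfl, h'⟩
        · exact Or.inr ⟨rfl, h⟩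
        · exact Or.inl (sw_sw x).symm }

theorem ram_swS (L : Type) [Finite L] (T : Set (Bool → L)) :
    ∃ d, 0 < d ∧ Ram Bool L (swS T) d := by
  have hT : T.Finite := Set.toFinite T
  induction T, hT using Set.Finite.induction_on with
  | empty =>
    refine ⟨1, one_pos, (ram_eq Bool L).mono ?_⟩
    rintro x y (rfl | ⟨_, h⟩)
    · exact Relation.EqvGen.refl _
    · simp at h
  | @insert z T _ _ ih =>
    obtain ⟨d, hd, h⟩ := ih
    let s := swS T
    have h1 := ram_pigeon (Quotient s) (Quotient.mk s z) (Quotient.mk s (sw z))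
    have h2 := h1.mono (E' := fun x y => x = y ∨ (x false = Quotient.mk s z ∧
        x true = Quotient.mk s (sw z) ∧ y false = Quotient.mk s (sw z) ∧
        y true = Quotient.mk s z)) (by
      rintro x y (rfl | h)
      · exact Relation.EqvGen.refl _
      · exact Relation.EqvGen.rel _ _ h)
    have h3 := Ram.wreath s h h2
    let μ : Bool × Bool → Bool ⊕ L := fun p => Sum.inl (xor p.1 p.2)
    have hμ : Deg μ 2 := by
      intro v
      have : Nat.card {p : Bool × Bool // xor p.1 p.2 = v} = 2 := by
        rw [Nat.card_eq_fintype_card]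
        cases v <;> decide
      rw [← this]
      refine Nat.card_congr (Equiv.subtypeEquivRight ?_)
      intro p
      simp [μ]
    have h4 := h3.pull μ hμ
    have e0 : ∀ x : Bool → L, (fun v => ev μ x (false, v)) = x := by
      intro x; funext v; simp [ev, μ]
    have e1 : ∀ x : Bool → L, (fun v => ev μ x (true, v)) = sw x := by
      intro x; funext v; simp [ev, μ, sw]
    refine ⟨_, by positivity, h4.mono ?_⟩
    have hz : Relation.EqvGen (fun x y : Bool → L =>
        ((fun w => Quotient.mk s (fun v => ev μ x (w, v))) =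
          (fun w => Quotient.mk s (fun v => ev μ y (w, v)))) ∨
        (Quotient.mk s (fun v => ev μ x (false, v)) = Quotient.mk s z ∧
        Quotient.mk s (fun v => ev μ x (true, v)) = Quotient.mk s (sw z) ∧
        Quotient.mk s (fun v => ev μ y (false, v)) = Quotient.mk s (sw z) ∧
        Quotient.mk s (fun v => ev μ y (true, v)) = Quotient.mk s z)) z (sw z) := by
      refine Relation.EqvGen.rel _ _ (Or.inr ?_)
      rw [e0, e1, e0, e1, sw_sw]
      exact ⟨rfl, rfl, rfl, rfl⟩
    rintro x y (rfl | ⟨rfl, hx⟩)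
    · exact Relation.EqvGen.refl _
    · by_cases h5 : x ∈ T ∨ sw x ∈ T
      · refine Relation.EqvGen.rel _ _ (Or.inl ?_)
        funext w
        cases w
        · rw [e0, e0]
          exact Quotient.sound (Or.inr ⟨rfl, h5⟩)
        · rw [e1, e1]
          exact Quotient.sound (Or.inr ⟨rfl, by rw [sw_sw]; exact h5.symm⟩)
      · rcases hx with hx | hx
        · rcases hx with rfl | hx
          · exact hz
          · exact absurd (Or.inl hx) h5
        · rcases hx with hx | hx
          · have : x = sw z := by rw [← hx, sw_sw]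
            subst this
            rw [sw_sw]
            exact hz.symm _ _
          · exact absurd (Or.inr hx) h5

end Pool.Agent.H292Z
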