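import Pool.Agent.H292Z.Ram

/-!
Finite 2-groups of permutations with the block Ramsey property, closed under wreath products,
and the symmetrisation theorem.
-/

set_option autoImplicit false

namespace Pool.Agent.H292Z

/-- two colourings of `Ω` lie in one orbit of `G` -/
def ORel (G : Type) {Ω L : Type} [Group G] [MulAction G Ω] (c c' : Ω → L) : Prop :=
  ∃ g : G, ∀ ω, c' (g • ω) = c ω

/-- the orbit equivalence on colourings -/
def oS (G : Type) (Ω L : Type) [Group G] [MulAction G Ω] : Setoid (Ω → L) where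
  r := ORel G
  iseqv :=
    { refl := fun _ => ⟨1, fun ω => by rw [one_smul]⟩
      symm := by
        rintro c c' ⟨g, hg⟩
        exact ⟨g⁻¹, fun ω => by rw [← hg, smul_inv_smul]⟩
      trans := by
        rintro c c' c'' ⟨g, hg⟩ ⟨h, hh⟩
        exact ⟨h * g, fun ω => by rw [mul_smul, hh, hg]⟩ }

/-- A finite 2-group acting on a finite set, with the block Ramsey property. -/
structure Sys where
  Ω : Type
  G : Type
  [finΩ : Finite Ω]
  [grp : Group G]
  [act : MulAction G Ω]
  pow2 : ∃ k, Nat.card G = 2 ^ k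
  ram : ∀ (L : Type) [Finite L], ∃ d, 0 < d ∧ Ram Ω L (ORel G) d

attribute [instance] Sys.finΩ Sys.grp Sys.act

/-- the trivial system -/
def sysOne : Sys where
  Ω := Unit
  G := Equiv.Perm Unit
  pow2 := ⟨0, by simp⟩
  ram := fun L _ => ⟨1, one_pos, (ram_eq Unit L).mono (by
    rintro x y ⟨g, hg⟩
    have : x = y := by funext u; exact (hg u).symm
    subst this
    exact Relation.EqvGen.refl _)⟩

/-- the swap system -/
def sysTwo : Sys where
  Ω := Bool
  G := Equiv.Perm Bool
  pow2 := ⟨1, by simp [Fintype.card_perm]⟩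
  ram := fun L _ => by
    obtain ⟨d, hd, h⟩ := ram_swS L Set.univ
    refine ⟨d, hd, h.mono ?_⟩
    rintro x y ⟨g, hg⟩
    refine Relation.EqvGen.rel _ _ ?_
    have h0 := hg false
    have h1 := hg true
    have hne : g false ≠ g true := fun h => by simpa using g.injective h
    simp only [Equiv.Perm.smul_def] at h0 h1
    cases hf : g false <;> cases ht : g true <;> rw [hf] at h0 hne <;> rw [ht] at h1 hne
    · exact absurd rfl hne
    · left; funext t; cases t
      · exact h0.symm
      · exact h1.symm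
    · right
      refine ⟨?_, Or.inl trivial⟩
      funext t; cases t
      · exact h1
      · exact h0
    · exact absurd rfl hne

/-- the action of the top group on the base group -/
def wrφ (T S : Sys) : T.G →* MulAut (T.Ω → S.G) where
  toFun g :=
    { toFun := fun f a => f (g⁻¹ • a)
      invFun := fun f a => f (g • a)
      left_inv := fun f => by funext a; simp
      right_inv := fun f => by funext a; simp
      map_mul' := fun _ _ => rfl }
  map_one' := by ext f a; simp
  map_mul' g h := by ext f a; simp [mul_smul]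

/-- the wreath product group -/
abbrev WrG (T S : Sys) : Type := SemidirectProduct (T.Ω → S.G) T.G (wrφ T S)

instance wrAct (T S : Sys) : MulAction (WrG T S) (T.Ω × S.Ω) where
  smul w p := (w.right • p.1, w.left (w.right • p.1) • p.2)
  one_smul p := by
    change ((1 : WrG T S).right • p.1, (1 : WrG T S).left ((1 : WrG T S).right • p.1) • p.2) = p
    simp
  mul_smul w w' p := by
    change ((w * w').right • p.1, (w * w').left ((w * w').right • p.1) • p.2) =
      (w.right • (w'.right • p.1), w.left (w.right • (w'.right • p.1)) •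
        (w'.left (w'.right • p.1) • p.2))
    simp [mul_smul, wrφ]

theorem wr_smul (T S : Sys) (w : WrG T S) (p : T.Ω × S.Ω) :
    w • p = (w.right • p.1, w.left (w.right • p.1) • p.2) := rfl

theorem wr_rel_iff (T S : Sys) {L : Type} (x y : T.Ω × S.Ω → L) :
    ORel (WrG T S) x y ↔
      ORel T.G (fun a => Quotient.mk (oS S.G S.Ω L) (fun v => x (a, v)))
        (fun a => Quotient.mk (oS S.G S.Ω L) (fun v => y (a, v))) := by
  constructor
  · rintro ⟨w, hw⟩
    refine ⟨w.right, fun a => ?_⟩
    symm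
    apply Quotient.sound
    exact ⟨w.left (w.right • a), fun v => hw (a, v)⟩
  · rintro ⟨g, hg⟩
    have : ∀ a, ∃ h : S.G, ∀ v, y (g • a, h • v) = x (a, v) := fun a =>
      Quotient.exact (hg a).symm
    choose h hh using this
    refine ⟨⟨fun a => h (g⁻¹ • a), g⟩, fun p => ?_⟩
    rw [wr_smul]
    simpa using hh p.1 p.2

/-- the wreath product of two systems -/
def wr (T S : Sys) : Sys where
  Ω := T.Ω × S.Ω
  G := WrG T S
  pow2 := by
    obtain ⟨k, hk⟩ := T.pow2
    obtain ⟨l, hl⟩ := S.pow2
    refine ⟨l * Nat.card T.Ω + k, ?_⟩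
    rw [SemidirectProduct.card, Nat.card_fun, hk, hl, pow_add, pow_mul]
  ram := fun L _ => by
    obtain ⟨d, hd, h⟩ := S.ram L
    obtain ⟨d', hd', h'⟩ := T.ram (Quotient (oS S.G S.Ω L))
    refine ⟨d' * d, by positivity, (Ram.wreath (oS S.G S.Ω L) h h').mono ?_⟩
    intro x y hxy
    exact Relation.EqvGen.rel _ _ ((wr_rel_iff T S x y).1 hxy)

/-- the content (multiset of letters) of a word -/
def cont {m : ℕ} {L : Type} (x : Fin m → L) : Multiset L := ∑ j, ({x j} : Multiset L)

theorem cont_succAbove {m : ℕ} {L : Type} (x : Fin (m + 1) → L) (i : Fin (m + 1)) :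
    cont x = {x i} + cont (fun k => x (i.succAbove k)) :=
  Fin.sum_univ_succAbove (fun j => ({x j} : Multiset L)) i

theorem cont_map {m : ℕ} {L L' : Type} (x : Fin m → L) (f : L → L') :
    cont (fun j => f (x j)) = (cont x).map f := by
  unfold cont
  rw [← Multiset.coe_mapAddMonoidHom, map_sum]
  simp

theorem mem_cont {m : ℕ} {L : Type} (x : Fin m → L) (s : L) : s ∈ cont x ↔ ∃ j, x j = s := by
  unfold cont
  simp [Multiset.mem_sum, eq_comm]

theorem cont_update {m : ℕ} {L : Type} (x : Fin m → L) (k : Fin m) (s : L) :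
    {x k} + cont (Function.update x k s) = {s} + cont x := by
  cases m with
  | zero => exact k.elim0
  | succ m =>
    rw [cont_succAbove x k, cont_succAbove (Function.update x k s) k]
    have : (fun j => Function.update x k s (k.succAbove j)) = fun j => x (k.succAbove j) := by
      funext j
      rw [Function.update_of_ne (Fin.succAbove_ne k j)]
    rw [this, Function.update_self]
    abel

/-- `Sym m`: for each finite alphabet there is a labelling on which all words with the same
content lie in one orbit. -/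
def SymQ (m : ℕ) : Prop :=
  ∀ (L : Type) [Finite L], ∃ (S : Sys) (lab : S.Ω → Fin m ⊕ L) (d : ℕ), 0 < d ∧ Deg lab d ∧
    ∀ x y : Fin m → L, cont x = cont y → ORel S.G (ev lab x) (ev lab y)

theorem symQ_one : SymQ 1 := by
  intro L _
  refine ⟨sysOne, fun _ => Sum.inl 0, 1, one_pos, ?_, ?_⟩
  · intro v
    rw [Nat.card_eq_one_iff_exists]
    exact ⟨⟨(), by rw [Subsingleton.elim v 0]⟩, fun _ => rfl⟩
  · intro x y h
    have : x 0 = y 0 := by simpa [cont] using h
    exact ⟨1, fun _ => this.symm⟩

/-- number of occurrences of a variable -/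
noncomputable def cnt {N V L : Type} (lab : N → V ⊕ L) (v : V) : ℕ :=
  Nat.card {n // lab n = Sum.inl v}

/-- substitute labellings for the variables of a labelling over the alphabet of classes -/
noncomputable def subst {W N M V L : Type} (s : Setoid (N → L)) (lab' : W → M ⊕ Quotient s)
    (A : M → N → V ⊕ L) : W × N → V ⊕ L :=
  fun p => Sum.elim (fun k => A k p.2) (fun q => Sum.inr (q.out p.2)) (lab' p.1)

theorem subst_class {W N M V L : Type} (s : Setoid (N → L)) (lab' : W → M ⊕ Quotient s)
    (A : M → N → V ⊕ L) (x : V → L) :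
    (fun a => Quotient.mk s (fun v => ev (subst s lab' A) x (a, v))) =
      ev lab' (fun k => Quotient.mk s (ev (A k) x)) := by
  funext a
  simp only [ev, subst]
  cases lab' a with
  | inl k => rfl
  | inr q => simp

theorem cnt_subst {W N M V L : Type} [Finite W] [Finite N] [Fintype M] (s : Setoid (N → L))
    (lab' : W → M ⊕ Quotient s) {D : ℕ} (hD : Deg lab' D) (A : M → N → V ⊕ L) (v : V) :
    cnt (subst s lab' A) v = D * ∑ k, cnt (A k) v := by
  classical
  let f : (Σ k : M, {w // lab' w = Sum.inl k} × {n // A k n = Sum.inl v}) →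
      {p // subst s lab' A p = Sum.inl v} :=
    fun q => ⟨(q.2.1.1, q.2.2.1), by simp [subst, q.2.1.2, q.2.2.2]⟩
  have hf : Function.Bijective f := by
    constructor
    · rintro ⟨k, ⟨w, hw⟩, ⟨n, hn⟩⟩ ⟨k', ⟨w', hw'⟩, ⟨n', hn'⟩⟩ h
      have h1 : (w, n) = (w', n') := congrArg Subtype.val h
      obtain ⟨rfl, rfl⟩ := Prod.mk.inj h1
      have : k = k' := Sum.inl_injective (hw.symm.trans hw')
      subst this
      rfl
    · rintro ⟨⟨w, n⟩, hp⟩
      simp only [subst] at hp
      cases hl : lab' w with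
      | inl k =>
        rw [hl] at hp
        exact ⟨⟨k, ⟨w, hl⟩, ⟨n, hp⟩⟩, rfl⟩
      | inr q => rw [hl] at hp; simp at hp
  unfold cnt
  rw [← Nat.card_congr (Equiv.ofBijective f hf), Nat.card_sigma, Finset.mul_sum]
  refine Finset.sum_congr rfl fun k _ => ?_
  rw [Nat.card_prod, hD k]

/-- two labellings side by side -/
def pairL {N V L : Type} (A B : N → V ⊕ L) : Bool × N → V ⊕ L :=
  fun p => if p.1 then B p.2 else A p.2

theorem cnt_pairL {N V L : Type} [Finite N] (A B : N → V ⊕ L) (v : V) :
    cnt (pairL A B) v = cnt A v + cnt B v := by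
  let f : {n // A n = Sum.inl v} ⊕ {n // B n = Sum.inl v} → {p // pairL A B p = Sum.inl v} :=
    Sum.elim (fun n => ⟨(false, n.1), by simp [pairL, n.2]⟩)
      (fun n => ⟨(true, n.1), by simp [pairL, n.2]⟩)
  have hf : Function.Bijective f := by
    constructor
    · rintro (⟨n, hn⟩ | ⟨n, hn⟩) (⟨n', hn'⟩ | ⟨n', hn'⟩) h <;>
        have h1 := congrArg Subtype.val h <;> simp_all [f]
    · rintro ⟨⟨b, n⟩, hp⟩
      cases b
      · exact ⟨Sum.inl ⟨n, by simpa [pairL] using hp⟩, rfl⟩
      · exact ⟨Sum.inr ⟨n, by simpa [pairL] using hp⟩, rfl⟩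
  unfold cnt
  rw [← Nat.card_congr (Equiv.ofBijective f hf), Nat.card_sum]

theorem pair_rel_same (S : Sys) {V L : Type} (A B A' B' : S.Ω → V ⊕ L) (x y : V → L)
    (h1 : ORel S.G (ev A x) (ev A' y)) (h2 : ORel S.G (ev B x) (ev B' y)) :
    ORel (WrG sysTwo S) (Ω := sysTwo.Ω × S.Ω) (ev (pairL A B) x) (ev (pairL A' B') y) := by
  refine (wr_rel_iff sysTwo S _ _).2 ⟨1, fun b => ?_⟩
  rw [one_smul]
  symm
  apply Quotient.sound
  cases b
  · exact h1
  · exact h2

theorem pair_rel_swap (S : Sys) {V L : Type} (A B A' B' : S.Ω → V ⊕ L) (x y : V → L)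
    (h1 : ORel S.G (ev A x) (ev B' y)) (h2 : ORel S.G (ev B x) (ev A' y)) :
    ORel (WrG sysTwo S) (Ω := sysTwo.Ω × S.Ω) (ev (pairL A B) x) (ev (pairL A' B') y) := by
  refine (wr_rel_iff sysTwo S _ _).2 ⟨(Equiv.swap false true : Equiv.Perm Bool), fun b => ?_⟩
  symm
  apply Quotient.sound
  cases b
  · exact h1
  · exact h2

/-- a stage of the construction -/
def Stage (m : ℕ) (L : Type) (T : Set ((Fin (m + 1) → L) × Fin (m + 1) × Fin (m + 1)))
    (unif : Prop) : Prop :=
  ∃ (S : Sys) (lab : Fin (m + 1) → S.Ω → Fin (m + 1) ⊕ L) (s : ℕ), 0 < s ∧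
    (∀ j, ∑ i, cnt (lab i) j = s) ∧
    (unif → ∃ e, 0 < e ∧ ∀ i j, cnt (lab i) j = e) ∧
    (∀ x y i i', cont x = cont y → x i = y i' → ORel S.G (ev (lab i) x) (ev (lab i') y)) ∧
    (∀ t ∈ T, ORel S.G (ev (lab t.2.1) t.1) (ev (lab t.2.2) t.1))

theorem stage_zero (m : ℕ) (L : Type) : Stage m L ∅ False := by
  refine ⟨sysOne, fun i _ => Sum.inl i, 1, one_pos, ?_, False.elim, ?_, by simp⟩
  · intro j
    rw [Finset.sum_eq_single j]
    · unfold cnt
      rw [Nat.card_eq_one_iff_exists]
      exact ⟨⟨(), rfl⟩, fun _ => rfl⟩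
    · intro i _ hij
      unfold cnt
      rw [Nat.card_eq_zero]
      left
      exact ⟨fun p => hij (Sum.inl_injective p.2)⟩
    · simp
  · intro x y i i' _ h
    exact ⟨1, fun _ => h.symm⟩

theorem stage_step {m : ℕ} (hQ : SymQ m) (L : Type) [Finite L]
    (T : Set ((Fin (m + 1) → L) × Fin (m + 1) × Fin (m + 1))) (u : Prop) (h : Stage m L T u)
    (z : Fin (m + 1) → L) (a : Fin (m + 1)) (k₀ : Fin m) :
    Stage m L (insert (z, a, a.succAbove k₀) T) True := by
  classical
  obtain ⟨S, lab, s, hs, hsum, -, hB, hT⟩ := h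
  let σ := oS S.G S.Ω L
  obtain ⟨S', lab', D, hD, hdeg, hsym⟩ := hQ (Quotient σ)
  let cl : (Fin (m + 1) → L) → Fin (m + 1) → Quotient σ :=
    fun x j => Quotient.mk σ (ev (lab j) x)
  let A : Fin (m + 1) → Fin m → S.Ω → Fin (m + 1) ⊕ L := fun i k => lab (i.succAbove k)
  let B : Fin (m + 1) → Fin m → S.Ω → Fin (m + 1) ⊕ L := fun i =>
    Function.update (fun k ω => Sum.inr (ev (lab (a.succAbove k)) z ω)) k₀ (lab i)
  have hA : ∀ i x, (fun k => Quotient.mk σ (ev (A i k) x)) = fun k => cl x (i.succAbove k) :=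
    fun _ _ => rfl
  have hBc : ∀ i x, (fun k => Quotient.mk σ (ev (B i k) x)) =
      Function.update (fun k => cl z (a.succAbove k)) k₀ (cl x i) := by
    intro i x
    funext k
    by_cases hk : k = k₀
    · subst hk; simp [B, cl]
    · simp only [B, Function.update_of_ne hk]
      rfl
  have H : ∀ (C C' : Fin m → S.Ω → Fin (m + 1) ⊕ L) (x y : Fin (m + 1) → L),
      cont (fun k => Quotient.mk σ (ev (C k) x)) = cont (fun k => Quotient.mk σ (ev (C' k) y)) →
      ORel (WrG S' S) (ev (subst σ lab' C) x) (ev (subst σ lab' C') y) := by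
    intro C C' x y hc
    refine (wr_rel_iff S' S _ _).2 ?_
    have e1 := subst_class σ lab' C x
    have e2 := subst_class σ lab' C' y
    erw [e1, e2]
    exact hsym _ _ hc
  have hcont : ∀ x y, cont x = cont y → cont (cl x) = cont (cl y) := by
    intro x y hxy
    let ψ : L → Quotient σ := fun t => if h : ∃ j, x j = t then cl x h.choose else cl x 0
    have e1 : cl x = fun j => ψ (x j) := by
      funext j
      have hj : ∃ j', x j' = x j := ⟨j, rfl⟩
      simp only [ψ, dif_pos hj]
      exact Quotient.sound (hB x x _ _ rfl hj.choose_spec.symm)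
    have e2 : cl y = fun j => ψ (y j) := by
      funext j
      have hj : ∃ j', x j' = y j := by
        rw [← mem_cont, hxy, mem_cont]; exact ⟨j, rfl⟩
      simp only [ψ, dif_pos hj]
      exact Quotient.sound (hB y x _ _ hxy.symm hj.choose_spec.symm)
    rw [e1, e2, cont_map x ψ, cont_map y ψ, hxy]
  let lab₂ : Fin (m + 1) → (wr sysTwo (wr S' S)).Ω → Fin (m + 1) ⊕ L := fun i =>
    pairL (subst σ lab' (A i)) (subst σ lab' (B i))
  have K : ∀ x y i i', cont x = cont y → cl x i = cl y i' →
      ORel (wr sysTwo (wr S' S)).G (ev (lab₂ i) x) (ev (lab₂ i') y) := by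
    intro x y i i' hxy hi
    refine pair_rel_same (wr S' S) _ _ _ _ x y (H _ _ _ _ ?_) (H _ _ _ _ ?_)
    · rw [hA, hA]
      have := hcont x y hxy
      rw [cont_succAbove (cl x) i, cont_succAbove (cl y) i', hi] at this
      exact add_left_cancel this
    · rw [hBc, hBc, hi]
  have hcnt : ∀ i j, cnt (lab₂ i) j = D * s := by
    intro i j
    have e1 := cnt_pairL (subst σ lab' (A i)) (subst σ lab' (B i)) j
    rw [cnt_subst σ lab' hdeg, cnt_subst σ lab' hdeg] at e1
    have e2 : ∑ k, cnt (B i k) j = cnt (lab i) j := by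
      rw [Finset.sum_eq_single k₀]
      · simp [B]
      · intro k _ hk
        simp only [B, Function.update_of_ne hk]
        unfold cnt
        rw [Nat.card_eq_zero]
        left
        exact ⟨fun p => by simpa using p.2⟩
      · simp
    have e3 := Fin.sum_univ_succAbove (fun i' => cnt (lab i') j) i
    rw [hsum j] at e3
    change cnt (pairL (subst σ lab' (A i)) (subst σ lab' (B i))) j = D * s
    rw [e1, e2, e3]
    simp only [A]
    ring
  refine ⟨wr sysTwo (wr S' S), lab₂, (m + 1) * (D * s), by positivity, ?_,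
    fun _ => ⟨D * s, by positivity, hcnt⟩, ?_, ?_⟩
  · intro j
    simp [hcnt]
  · intro x y i i' hxy hi
    exact K x y i i' hxy (Quotient.sound (hB x y i i' hxy hi))
  · rintro t (rfl | ht)
    · refine pair_rel_swap (wr S' S) _ _ _ _ z z (H _ _ _ _ ?_) (H _ _ _ _ ?_)
      · rw [hA, hBc]
        congr 1
        exact (Function.update_eq_self k₀ _).symm
      · rw [hBc, hA]
        have e1 := cont_update (fun k => cl z (a.succAbove k)) k₀ (cl z a)
        rw [← cont_succAbove (cl z) a, cont_succAbove (cl z) (a.succAbove k₀)] at e1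
        exact add_left_cancel e1
    · exact K _ _ _ _ rfl (Quotient.sound (hT t ht))

theorem stage_mono {m : ℕ} {L : Type}
    {T T' : Set ((Fin (m + 1) → L) × Fin (m + 1) × Fin (m + 1))} {u : Prop}
    (h : Stage m L T u) (hT : ∀ t ∈ T', t ∈ T ∨ t.2.1 = t.2.2) : Stage m L T' u := by
  obtain ⟨S, lab, s, hs, hsum, hu, hB, hT'⟩ := h
  refine ⟨S, lab, s, hs, hsum, hu, hB, fun t ht => ?_⟩
  rcases hT t ht with h | h
  · exact hT' t h
  · rw [h]
    exact (oS S.G S.Ω L).refl _

theorem symQ_succ {m : ℕ} (hm : 0 < m) (hQ : SymQ m) : SymQ (m + 1) := by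
  intro L _
  rcases isEmpty_or_nonempty L with hL | ⟨⟨l₀⟩⟩
  · let S : Sys :=
      { Ω := Fin (m + 1)
        G := Equiv.Perm Unit
        act := MulAction.compHom (Fin (m + 1)) (1 : Equiv.Perm Unit →* Equiv.Perm (Fin (m + 1)))
        pow2 := ⟨0, by simp⟩
        ram := fun L' _ => ⟨1, one_pos, (ram_eq (Fin (m + 1)) L').mono (by
          rintro x y ⟨g, hg⟩
          have : x = y := by funext u; exact (hg u).symm
          subst this
          exact Relation.EqvGen.refl _)⟩ }
    exact ⟨S, fun i => Sum.inl i, 1, one_pos, deg_equiv (Equiv.refl _),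
      fun x => (hL.false (x 0)).elim⟩
  have all : ∀ T : Set ((Fin (m + 1) → L) × Fin (m + 1) × Fin (m + 1)), Stage m L T True := by
    intro T
    have hT : T.Finite := Set.toFinite T
    induction T, hT using Set.Finite.induction_on with
    | empty =>
      exact stage_mono (stage_step hQ L ∅ False (stage_zero m L) (fun _ => l₀) 0 ⟨0, hm⟩)
        (by simp)
    | @insert t T _ _ ih =>
      obtain ⟨z, a, b⟩ := t
      by_cases hab : b = a
      · refine stage_mono ih ?_
        rintro t (rfl | ht)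
        · exact Or.inr hab.symm
        · exact Or.inl ht
      · obtain ⟨k₀, rfl⟩ := Fin.exists_succAbove_eq hab
        exact stage_step hQ L T True ih z a k₀
  obtain ⟨S, lab, s, -, -, hu, hB, hT⟩ := all Set.univ
  obtain ⟨e, he, hcnt⟩ := hu trivial
  refine ⟨S, lab 0, e, he, hcnt 0, fun x y hxy => ?_⟩
  obtain ⟨j, hj⟩ : ∃ j, y j = x 0 := by
    rw [← mem_cont, ← hxy, mem_cont]; exact ⟨0, rfl⟩
  exact (oS S.G S.Ω L).trans (hB x y 0 j hxy hj.symm) (hT (y, j, 0) trivial)

theorem symQ (m : ℕ) : SymQ (m + 1) := by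
  induction m with
  | zero => exact symQ_one
  | succ m ih => exact symQ_succ (Nat.succ_pos m) ih

theorem cont_perm {m : ℕ} {L : Type} (x : Fin m → L) (σ : Equiv.Perm (Fin m)) :
    cont (fun j => x (σ j)) = cont x :=
  Equiv.sum_comp σ (fun j => ({x j} : Multiset L))

/-- The block Ramsey property for the relation of having the same content. -/
theorem ram_cont (m : ℕ) (L : Type) [Finite L] :
    ∃ d, 0 < d ∧ Ram (Fin (m + 1)) L (fun x y => cont x = cont y) d := by
  obtain ⟨S, lab, e, he, hdeg, hsym⟩ := symQ m L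
  obtain ⟨d, hd, h⟩ := S.ram L
  refine ⟨e * d, by positivity, (h.pull lab hdeg).mono ?_⟩
  intro x y hxy
  exact Relation.EqvGen.rel _ _ (hsym x y hxy)

end Pool.Agent.H292Z
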